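import Mathlib

/-!
# A tree-like structure: elements, parities and valuations of lists

Elements are triples (sort, level, bits below the level).  A finite list of elements is `Alw`
(allowed) when every level occurs an even number of times and the sort `true` occurs an even number
of times.  `val` of a list is the first place at which either some level is reached or the sum
modulo two of the bits is `1`.
-/

namespace Pool.Agent.DpTree

/-- The parity of the number of entries of the list at which `f` is `true`. -/
def xr {α : Type*} (f : α → Bool) : List α → Bool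
  | [] => false
  | a :: l => xor (f a) (xr f l)

@[simp] theorem xr_nil {α : Type*} (f : α → Bool) : xr f [] = false := rfl

@[simp] theorem xr_cons {α : Type*} (f : α → Bool) (a : α) (l : List α) :
    xr f (a :: l) = xor (f a) (xr f l) := rfl

@[simp] theorem xr_append {α : Type*} (f : α → Bool) (l l' : List α) :
    xr f (l ++ l') = xor (xr f l) (xr f l') := by
  induction l with
  | nil => simp
  | cons a l ih => simp [ih]

@[simp] theorem xr_map {α β : Type*} (f : β → Bool) (s : α → β) (l : List α) :
    xr f (l.map s) = xr (fun a => f (s a)) l := by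
  induction l with
  | nil => simp
  | cons a l ih => simp [ih]

theorem xr_perm {α : Type*} (f : α → Bool) {l l' : List α} (h : l.Perm l') :
    xr f l = xr f l' := by
  induction h with
  | nil => rfl
  | cons a _ ih => simp [ih]
  | swap a b l => simp [Bool.xor_left_comm]
  | trans _ _ ih₁ ih₂ => exact ih₁.trans ih₂

theorem xr_congr {α : Type*} {f g : α → Bool} {l : List α} (h : ∀ a ∈ l, f a = g a) :
    xr f l = xr g l := by
  induction l with
  | nil => rfl
  | cons a l ih =>
    simp only [xr_cons]
    rw [h a (by simp), ih (fun b hb => h b (by simp [hb]))]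

theorem xr_replicate_even {α : Type*} (f : α → Bool) (a : α) (n : ℕ) :
    xr f (List.replicate (2 * n) a) = false := by
  induction n with
  | zero => simp
  | succ n ih =>
    rw [show 2 * (n + 1) = 2 * n + 1 + 1 by ring, List.replicate_succ, List.replicate_succ]
    simp [ih]

theorem xr_replicate_odd {α : Type*} (f : α → Bool) (a : α) (n : ℕ) :
    xr f (List.replicate (2 * n + 1) a) = f a := by
  rw [List.replicate_succ]
  simp [xr_replicate_even]

/-- Two lists with the same members and the same parities. -/
def SameL {α : Type*} (l l' : List α) : Prop :=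
  (∀ a, a ∈ l ↔ a ∈ l') ∧ ∀ f : α → Bool, xr f l = xr f l'

theorem SameL.refl {α : Type*} (l : List α) : SameL l l := ⟨fun _ => Iff.rfl, fun _ => rfl⟩

theorem SameL.symm {α : Type*} {l l' : List α} (h : SameL l l') : SameL l' l :=
  ⟨fun a => (h.1 a).symm, fun f => (h.2 f).symm⟩

theorem SameL.trans {α : Type*} {l l' l'' : List α} (h : SameL l l') (h' : SameL l' l'') :
    SameL l l'' :=
  ⟨fun a => (h.1 a).trans (h'.1 a), fun f => (h.2 f).trans (h'.2 f)⟩

theorem SameL.of_perm {α : Type*} {l l' : List α} (h : l.Perm l') : SameL l l' :=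
  ⟨fun _ => h.mem_iff, fun f => xr_perm f h⟩

theorem SameL.map {α β : Type*} (s : α → β) {l l' : List α} (h : SameL l l') :
    SameL (l.map s) (l'.map s) := by
  refine ⟨fun b => ?_, fun f => ?_⟩
  · simp only [List.mem_map]
    constructor
    · rintro ⟨a, ha, rfl⟩; exact ⟨a, (h.1 a).1 ha, rfl⟩
    · rintro ⟨a, ha, rfl⟩; exact ⟨a, (h.1 a).2 ha, rfl⟩
  · simp only [xr_map]; exact h.2 _

theorem SameL.cons {α : Type*} (a : α) {l l' : List α} (h : SameL l l') :
    SameL (a :: l) (a :: l') := by
  refine ⟨fun b => ?_, fun f => ?_⟩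
  · simp [h.1 b]
  · simp [h.2 f]

theorem SameL.append {α : Type*} {l l' m m' : List α} (h : SameL l l') (h' : SameL m m') :
    SameL (l ++ m) (l' ++ m') := by
  refine ⟨fun b => ?_, fun f => ?_⟩
  · simp [h.1 b, h'.1 b]
  · simp [h.2 f, h'.2 f]

/-- Every list over a finite type is equivalent to a short one. -/
theorem exists_short {ι : Type*} [Fintype ι] (l : List ι) :
    ∃ l' : List ι, l'.length ≤ 2 * Fintype.card ι ∧ SameL l l' := by
  classical
  induction hn : l.length using Nat.strong_induction_on generalizing l with
  | _ n ih =>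
    by_cases hle : l.length ≤ 2 * Fintype.card ι
    · exact ⟨l, hle, SameL.refl l⟩
    · have hex : ∃ i, 3 ≤ l.count i := by
        by_contra hcon
        push Not at hcon
        apply hle
        rw [← List.sum_toFinset_count_eq_length]
        calc ∑ a ∈ l.toFinset, l.count a ≤ ∑ a ∈ l.toFinset, 2 :=
              Finset.sum_le_sum fun a _ => by have := hcon a; omega
          _ = l.toFinset.card * 2 := by simp
          _ ≤ Fintype.card ι * 2 := Nat.mul_le_mul_right _ (Finset.card_le_univ _)
          _ = 2 * Fintype.card ι := by ring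
      obtain ⟨i, hi⟩ := hex
      have hsub : (List.replicate 3 i).Sublist l := List.replicate_sublist_iff.2 hi
      obtain ⟨m, hm⟩ := hsub.exists_perm_append
      have hlen : (i :: m).length < n := by
        have := hm.length_eq
        simp at this
        simp
        omega
      obtain ⟨l', hl', hs⟩ := ih _ hlen (i :: m) rfl
      refine ⟨l', hl', SameL.trans ?_ hs⟩
      refine (SameL.of_perm hm).trans ⟨fun a => ?_, fun f => ?_⟩
      · simp [List.replicate_succ]
      · simp [List.replicate_succ]

/-- Elements of the structure: a sort, a level and finitely many bits below the level. -/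
@[ext] structure Elt where
  /-- the sort -/
  srt : Bool
  /-- the level -/
  lev : ℕ
  /-- the bits -/
  bit : ℕ → Bool
  /-- bits vanish from the level on -/
  bit_ge : ∀ n, lev ≤ n → bit n = false

/-- Allowed lists. -/
def Alw (l : List Elt) : Prop :=
  (∀ d, xr (fun x : Elt => decide (x.lev = d)) l = false) ∧ xr Elt.srt l = false

/-- The valuation of a list. -/
noncomputable def val (l : List Elt) : ℕ :=
  sInf {n | (∃ x ∈ l, x.lev ≤ n) ∨ xr (fun x : Elt => x.bit n) l = true}

theorem SameL.alw {l l' : List Elt} (h : SameL l l') : Alw l ↔ Alw l' := by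
  unfold Alw
  simp only [h.2]

theorem SameL.val {l l' : List Elt} (h : SameL l l') : val l = val l' := by
  unfold DpTree.val
  simp only [h.2, h.1]

@[simp] theorem val_nil : val [] = 0 := by simp [val]

@[simp] theorem alw_nil : Alw [] := by simp [Alw]

theorem le_val_iff {l : List Elt} (h : l ≠ []) {n : ℕ} :
    n ≤ val l ↔ (∀ x ∈ l, n ≤ x.lev) ∧ ∀ m < n, xr (fun x : Elt => x.bit m) l = false := by
  have hne : {n | (∃ x ∈ l, x.lev ≤ n) ∨ xr (fun x : Elt => x.bit n) l = true}.Nonempty := by
    obtain ⟨x, hx⟩ := List.exists_mem_of_ne_nil l h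
    exact ⟨x.lev, Or.inl ⟨x, hx, le_rfl⟩⟩
  constructor
  · intro hn
    have key : ∀ m < n, ¬ ((∃ x ∈ l, x.lev ≤ m) ∨ xr (fun x : Elt => x.bit m) l = true) := by
      intro m hm
      exact Nat.notMem_of_lt_sInf (lt_of_lt_of_le hm hn)
    refine ⟨fun x hx => ?_, fun m hm => ?_⟩
    · by_contra hcon
      push Not at hcon
      exact key x.lev hcon (Or.inl ⟨x, hx, le_rfl⟩)
    · have := key m hm
      push Not at this
      simpa using this.2
  · rintro ⟨h1, h2⟩
    refine le_csInf hne ?_
    rintro b (⟨x, hx, hb⟩ | hb)
    · exact (h1 x hx).trans hb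
    · by_contra hcon
      push Not at hcon
      have := h2 b hcon
      simp [this] at hb

theorem val_le_lev {l : List Elt} {x : Elt} (hx : x ∈ l) : val l ≤ x.lev :=
  ((le_val_iff (List.ne_nil_of_mem hx)).1 le_rfl).1 x hx

theorem xr_of_lt_val {l : List Elt} {m : ℕ} (h : m < val l) :
    xr (fun x : Elt => x.bit m) l = false := by
  have hne : l ≠ [] := by
    rintro rfl
    simp at h
  exact ((le_val_iff hne).1 le_rfl).2 m h

theorem lt_val {l : List Elt} (hne : l ≠ []) {n : ℕ} (h1 : ∀ x ∈ l, n < x.lev)
    (h2 : ∀ m ≤ n, xr (fun x : Elt => x.bit m) l = false) : n < val l :=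
  (le_val_iff hne).2 ⟨fun x hx => h1 x hx, fun m hm => h2 m (by omega)⟩

theorem le_val_double {l : List Elt} (h : l ≠ []) {n : ℕ} :
    n ≤ val (l ++ l) ↔ ∀ x ∈ l, n ≤ x.lev := by
  rw [le_val_iff (by simp [h])]
  simp

@[simp] theorem val_pair (x : Elt) : val [x, x] = x.lev := by
  apply le_antisymm
  · exact val_le_lev (by simp)
  · rw [le_val_iff (by simp)]
    simp

theorem alw_double (l : List Elt) : Alw (l ++ l) := by simp [Alw]

@[simp] theorem alw_pair (x : Elt) : Alw [x, x] := by simp [Alw]

theorem Alw.cons_cons {x : Elt} {z w : List Elt} (h : Alw (x :: z)) (h' : Alw (x :: w)) :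
    Alw (z ++ w) := by
  refine ⟨fun d => ?_, ?_⟩
  · have h1 := h.1 d
    have h2 := h'.1 d
    simp only [xr_cons, xr_append] at *
    revert h1 h2
    cases decide (x.lev = d) <;> cases xr (fun x : Elt => decide (x.lev = d)) z <;>
      cases xr (fun x : Elt => decide (x.lev = d)) w <;> simp
  · have h1 := h.2
    have h2 := h'.2
    simp only [xr_cons, xr_append] at *
    revert h1 h2
    cases x.srt <;> cases xr Elt.srt z <;> cases xr Elt.srt w <;> simp

theorem Alw.not_nil {x : Elt} {z : List Elt} (h : Alw (x :: z)) : z ≠ [] := by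
  rintro rfl
  have := h.1 x.lev
  simp at this

theorem Alw.exists_lev {x : Elt} {z : List Elt} (h : Alw (x :: z)) : ∃ y ∈ z, y.lev = x.lev := by
  by_contra hcon
  push Not at hcon
  have h1 := h.1 x.lev
  have h2 : xr (fun y : Elt => decide (y.lev = x.lev)) z = xr (fun _ => false) z :=
    xr_congr fun a ha => by simpa using hcon a ha
  have h3 : ∀ z : List Elt, xr (fun _ => false) z = false := by
    intro z
    induction z with
    | nil => rfl
    | cons a l ih => simp [ih]
  simp only [xr_cons, h2, h3] at h1
  simp at h1

theorem alw_cons_congr {x y : Elt} (hl : x.lev = y.lev) (hs : x.srt = y.srt) (z : List Elt) :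
    Alw (x :: z) ↔ Alw (y :: z) := by
  simp [Alw, hl, hs]

/-- **Main computation.** -/
theorem val_cons_eq {x : Elt} {z w : List Elt} (hz : Alw (x :: z))
    (hC : val (z ++ w) = val (x :: w) → val (z ++ z) ≤ val (x :: w)) :
    val (x :: z) = min (val (x :: w)) (val (z ++ w)) := by
  have hzne : z ≠ [] := hz.not_nil
  have hne1 : z ++ w ≠ [] := by simp [hzne]
  -- ultrametric inequality
  have hultra : ∀ n, n ≤ val (x :: w) → n ≤ val (z ++ w) → n ≤ val (x :: z) := by
    intro n h1 h2
    rw [le_val_iff (by simp)] at h1 ⊢
    rw [le_val_iff hne1] at h2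
    refine ⟨fun y hy => ?_, fun m hm => ?_⟩
    · rcases List.mem_cons.1 hy with rfl | hy
      · exact h1.1 y (by simp)
      · exact h2.1 y (by simp [hy])
    · have e1 := h1.2 m hm
      have e2 := h2.2 m hm
      simp only [xr_cons, xr_append] at *
      revert e1 e2
      cases x.bit m <;> cases xr (fun x : Elt => x.bit m) z <;>
        cases xr (fun x : Elt => x.bit m) w <;> simp
  have hultra' : ∀ n, n ≤ val (x :: z) → n ≤ val (x :: w) → n ≤ val (z ++ w) := by
    intro n h2 h1
    rw [le_val_iff (by simp)] at h1 h2
    rw [le_val_iff hne1]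
    refine ⟨fun y hy => ?_, fun m hm => ?_⟩
    · rcases List.mem_append.1 hy with hy | hy
      · exact h2.1 y (by simp [hy])
      · exact h1.1 y (by simp [hy])
    · have e1 := h1.2 m hm
      have e2 := h2.2 m hm
      simp only [xr_cons, xr_append] at *
      revert e1 e2
      cases x.bit m <;> cases xr (fun x : Elt => x.bit m) z <;>
        cases xr (fun x : Elt => x.bit m) w <;> simp
  have h1 : val (x :: z) ≤ val (x :: w) := by
    by_contra hcon
    push Not at hcon
    -- `β < val (x :: z)`
    have hQle : val (z ++ w) ≤ val (x :: w) := by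
      by_contra hcon2
      push Not at hcon2
      have hlt : val (x :: w) < val (x :: w) := by
        refine lt_val (by simp) (fun y hy => ?_) (fun m hm => ?_)
        · rcases List.mem_cons.1 hy with rfl | hy
          · exact lt_of_lt_of_le hcon (val_le_lev (by simp))
          · exact lt_of_lt_of_le hcon2 (val_le_lev (by simp [hy]))
        · have e1 := xr_of_lt_val (lt_of_le_of_lt hm hcon)
          have e2 := xr_of_lt_val (lt_of_le_of_lt hm hcon2)
          simp only [xr_cons, xr_append] at *
          revert e1 e2
          cases x.bit m <;> cases xr (fun x : Elt => x.bit m) z <;>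
            cases xr (fun x : Elt => x.bit m) w <;> simp
      exact lt_irrefl _ hlt
    have hQ : val (z ++ w) = val (x :: w) :=
      le_antisymm hQle (hultra' _ hcon.le le_rfl)
    have hP := hC hQ
    have hP' : val (x :: w) + 1 ≤ val (z ++ z) := by
      rw [le_val_double hzne]
      intro y hy
      exact lt_of_lt_of_le hcon (val_le_lev (by simp [hy]))
    omega
  have h2 : val (x :: z) ≤ val (z ++ w) := hultra' _ le_rfl h1
  exact le_antisymm (le_min h1 h2) (hultra _ (min_le_left _ _) (min_le_right _ _))

/-- A maximiser in the appropriate sense. -/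
theorem exists_best {x : Elt} {Z : Set (List Elt)} (hZ : Z.Nonempty)
    (hA : ∀ z ∈ Z, Alw (x :: z)) :
    ∃ w ∈ Z, ∀ z ∈ Z, (val (z ++ w) = val (x :: w) → val (z ++ z) ≤ val (x :: w)) := by
  let S : Set ℕ := {n | ∃ z ∈ Z, val (x :: z) = n}
  have hS : S.Nonempty := by
    obtain ⟨z, hz⟩ := hZ
    exact ⟨_, z, hz, rfl⟩
  have hbdd : BddAbove S := by
    refine ⟨x.lev, ?_⟩
    rintro n ⟨z, _, rfl⟩
    exact val_le_lev (by simp)
  obtain ⟨w₀, hw₀, hw₀'⟩ := Nat.sSup_mem hS hbdd
  have hmax : ∀ z ∈ Z, val (x :: z) ≤ sSup S := fun z hz => le_csSup hbdd ⟨z, hz, rfl⟩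
  by_cases hpref : ∃ w ∈ Z, val (x :: w) = sSup S ∧ sSup S < val (w ++ w)
  · obtain ⟨w, hw, hwS, hwlt⟩ := hpref
    refine ⟨w, hw, fun z hz hQ => ?_⟩
    by_contra hcon
    push Not at hcon
    have hzne : z ≠ [] := (hA z hz).not_nil
    have hwne : w ≠ [] := (hA w hw).not_nil
    have hzlev : ∀ y ∈ z, val (x :: w) + 1 ≤ y.lev := (le_val_double hzne).1 hcon
    have hwlev : ∀ y ∈ w, val (x :: w) + 1 ≤ y.lev := by
      rw [← hwS] at hwlt
      exact (le_val_double hwne).1 hwlt
    obtain ⟨y, hy, hyx⟩ := (hA z hz).exists_lev
    have hxlev : val (x :: w) + 1 ≤ x.lev := hyx ▸ hzlev y hy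
    have p1 : xr (fun y : Elt => y.bit (val (x :: w))) (x :: w) = true := by
      by_contra hp
      have hlt : val (x :: w) < val (x :: w) := by
        refine lt_val (by simp) (fun y hy => ?_) (fun m hm => ?_)
        · rcases List.mem_cons.1 hy with rfl | hy
          · exact hxlev
          · exact hwlev y hy
        · rcases hm.lt_or_eq with hm | rfl
          · exact xr_of_lt_val hm
          · simpa using hp
      exact lt_irrefl _ hlt
    have p2 : xr (fun y : Elt => y.bit (val (x :: w))) (z ++ w) = true := by
      by_contra hp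
      have hlt : val (z ++ w) < val (z ++ w) := by
        refine lt_val (by simp [hzne]) (fun y hy => ?_) (fun m hm => ?_)
        · rw [hQ]
          rcases List.mem_append.1 hy with hy | hy
          · exact hzlev y hy
          · exact hwlev y hy
        · rcases hm.lt_or_eq with hm | rfl
          · exact xr_of_lt_val hm
          · rw [hQ]; simpa using hp
      exact lt_irrefl _ hlt
    have hlt : val (x :: w) < val (x :: z) := by
      refine lt_val (by simp) (fun y hy => ?_) (fun m hm => ?_)
      · rcases List.mem_cons.1 hy with rfl | hy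
        · exact hxlev
        · exact hzlev y hy
      · rcases hm.lt_or_eq with hm | rfl
        · have e1 : xr (fun x : Elt => x.bit m) (x :: w) = false := xr_of_lt_val hm
          have e2 : xr (fun x : Elt => x.bit m) (z ++ w) = false := xr_of_lt_val (hQ ▸ hm)
          simp only [xr_cons, xr_append] at *
          revert e1 e2
          cases x.bit m <;> cases xr (fun x : Elt => x.bit m) z <;>
            cases xr (fun x : Elt => x.bit m) w <;> simp
        · simp only [xr_cons, xr_append] at *
          revert p1 p2
          cases x.bit (val (x :: w)) <;> cases xr (fun y : Elt => y.bit (val (x :: w))) z <;>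
            cases xr (fun y : Elt => y.bit (val (x :: w))) w <;> simp
    have := hmax z hz
    omega
  · push Not at hpref
    refine ⟨w₀, hw₀, fun z hz hQ => ?_⟩
    have hzne : z ≠ [] := (hA z hz).not_nil
    have hge : val (x :: w₀) ≤ val (x :: z) := by
      have h1 : val (x :: w₀) ≤ val (z ++ w₀) := hQ.ge
      have h2 : val (x :: w₀) ≤ val (x :: w₀) := le_rfl
      generalize hn : val (x :: w₀) = n at *
      rw [le_val_iff (by simp)]
      rw [← hn, le_val_iff (by simp), hn] at h2
      rw [le_val_iff (by simp [hzne])] at h1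
      refine ⟨fun y hy => ?_, fun m hm => ?_⟩
      · rcases List.mem_cons.1 hy with rfl | hy
        · exact h2.1 y (by simp)
        · exact h1.1 y (by simp [hy])
      · have e1 := h1.2 m hm
        have e2 := h2.2 m hm
        simp only [xr_cons, xr_append] at *
        revert e1 e2
        cases x.bit m <;> cases xr (fun x : Elt => x.bit m) z <;>
          cases xr (fun x : Elt => x.bit m) w₀ <;> simp
    have hle := hmax z hz
    have heq : val (x :: z) = sSup S := by
      apply le_antisymm hle
      rw [← hw₀']
      exact hge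
    have := hpref z hz heq
    rw [← hw₀'] at this
    exact this

end Pool.Agent.DpTree
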