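import Mathlib

/-!
# Dp-minimal and distal structures, definable types
-/

open FirstOrder FirstOrder.Language

namespace Pool.Agent.DpTree

/-- The complete theory of `M` is dp-minimal: no model `N` of it contains an ICT-pattern of depth
two in one variable, that is, two formulas `φ(x; y)`, `ψ(x; z)` with `x` a single variable and
sequences of parameter tuples `a₀, a₁, …` and `b₀, b₁, …` such that for all `i, j` some element of
`N` satisfies `φ(x; aᵢ)` and no other `φ(x; aᵢ')`, and satisfies `ψ(x; bⱼ)` and no other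
`ψ(x; bⱼ')`. -/
def DpMinimal (L : FirstOrder.Language.{0, 0}) (M : Type) [L.Structure M] : Prop :=
  ∀ (N : Type) [L.Structure N], (N ≅[L] M) →
    ∀ (m k : ℕ) (φ : L.Formula (Unit ⊕ Fin m)) (ψ : L.Formula (Unit ⊕ Fin k))
      (a : ℕ → Fin m → N) (b : ℕ → Fin k → N),
      ¬ ∀ i j : ℕ, ∃ x : N,
        (∀ i' : ℕ, φ.Realize (Sum.elim (fun _ => x) (a i')) ↔ i' = i) ∧
        (∀ j' : ℕ, ψ.Realize (Sum.elim (fun _ => x) (b j')) ↔ j' = j)

/-- The subsequence of `(aᵢ)` with indices in `J` is order indiscernible over the tuple `b`. -/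
def IndiscOver (L : FirstOrder.Language.{0, 0}) {N : Type} [L.Structure N] {I : Type} [LinearOrder I]
    {m p : ℕ} (b : Fin p → N) (a : I → Fin m → N) (J : Set I) : Prop :=
  ∀ (k : ℕ) (φ : L.Formula (Fin p ⊕ (Fin k × Fin m))) (s t : Fin k → I),
    StrictMono s → StrictMono t → (∀ i, s i ∈ J) → (∀ i, t i ∈ J) →
    (φ.Realize (Sum.elim b (fun q => a (s q.1) q.2)) ↔
      φ.Realize (Sum.elim b (fun q => a (t q.1) q.2)))

/-- The complete theory of `M` is distal: whenever `(aᵢ)_{i ∈ I}` is an indiscernible sequence of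
finite tuples in a model `N`, `i₀ ∈ I` has no immediate neighbour on either side (and is not an
endpoint), and the sequence with `a_{i₀}` removed is indiscernible over a finite tuple `b`, then
the whole sequence is indiscernible over `b`. -/
def Distal (L : FirstOrder.Language.{0, 0}) (M : Type) [L.Structure M] : Prop :=
  ∀ (N : Type) [L.Structure N], (N ≅[L] M) →
    ∀ (I : Type) [LinearOrder I] (i₀ : I),
      (∃ i, i < i₀) → (∀ i, i < i₀ → ∃ j, i < j ∧ j < i₀) →
      (∃ i, i₀ < i) → (∀ i, i₀ < i → ∃ j, i₀ < j ∧ j < i) →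
      ∀ (m p : ℕ) (a : I → Fin m → N) (b : Fin p → N),
        IndiscOver L (Fin.elim0 : Fin 0 → N) a Set.univ →
        IndiscOver L b a {i₀}ᶜ → IndiscOver L b a Set.univ

/-- `p` is a complete `n`-type over `M`, viewed as an ultrafilter in the Boolean algebra of
the subsets of `Mⁿ` that are definable with parameters from `M`. -/
structure IsCompleteType (L : FirstOrder.Language.{0, 0}) {M : Type} [L.Structure M] {n : ℕ}
    (p : Set (Set (Fin n → M))) : Prop where
  definable : ∀ A ∈ p, (Set.univ : Set M).Definable L A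
  empty_notMem : ∅ ∉ p
  inter_mem : ∀ A ∈ p, ∀ B ∈ p, A ∩ B ∈ p
  mem_of_superset : ∀ A ∈ p, ∀ B : Set (Fin n → M), (Set.univ : Set M).Definable L B →
    A ⊆ B → B ∈ p
  mem_or_compl_mem : ∀ A : Set (Fin n → M), (Set.univ : Set M).Definable L A →
    A ∈ p ∨ Aᶜ ∈ p

/-- The complete type `p` is definable: for every formula `φ(x; y)`, the set of all `b` with
`φ(x; b) ∈ p` is definable with parameters from `M`. -/
def IsDefinableType (L : FirstOrder.Language.{0, 0}) {M : Type} [L.Structure M] {n : ℕ}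
    (p : Set (Set (Fin n → M))) : Prop :=
  ∀ (k : ℕ) (φ : L.Formula (Fin n ⊕ Fin k)),
    (Set.univ : Set M).Definable L {b : Fin k → M | {x | φ.Realize (Sum.elim x b)} ∈ p}

/-- The fibre `X_b`. -/
def fib {M : Type} {m n : ℕ} (X : Set (Fin m ⊕ Fin n → M)) (b : Fin m → M) :
    Set (Fin n → M) :=
  {x | Sum.elim b x ∈ X}

/-- The negated form of the question for a structure `M`: there is a definable downward directed
family of nonempty subsets of some `Mⁿ` such that no definable complete type over `M` contains all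
of its members. -/
def HasBadFamily (L : FirstOrder.Language.{0, 0}) (M : Type) [L.Structure M] : Prop :=
  ∃ (m n : ℕ) (Y : Set (Fin m → M)) (X : Set (Fin m ⊕ Fin n → M)),
    (Set.univ : Set M).Definable L Y ∧ (Set.univ : Set M).Definable L X ∧ Y.Nonempty ∧
    (∀ b ∈ Y, (fib X b).Nonempty) ∧
    (∀ b ∈ Y, ∀ b' ∈ Y, ∃ c ∈ Y, fib X c ⊆ fib X b ∩ fib X b') ∧
    ∀ p : Set (Set (Fin n → M)), IsCompleteType L p → IsDefinableType L p →
      ¬ ∀ b ∈ Y, fib X b ∈ p

end Pool.Agent.DpTree
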