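import Mathlib

/-!
# Uniformly definable predicates on all structures of a language
-/

open FirstOrder FirstOrder.Language

namespace Pool.Agent.DpTree

variable {L : FirstOrder.Language.{0, 0}}

/-- The predicate `P` is uniformly definable. -/
def UD (L : FirstOrder.Language.{0, 0}) {α : Type} (P : ∀ (N : Type) [L.Structure N], (α → N) → Prop) :
    Prop :=
  ∃ φ : L.Formula α, ∀ (N : Type) [L.Structure N] (v : α → N), φ.Realize v ↔ P N v

section

variable {α β ι : Type}

theorem UD.congr {P Q : ∀ (N : Type) [L.Structure N], (α → N) → Prop} (h : UD L P)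
    (hPQ : ∀ (N : Type) [L.Structure N] (v : α → N), P N v ↔ Q N v) : UD L Q := by
  obtain ⟨φ, hφ⟩ := h
  exact ⟨φ, fun N _ v => (hφ N v).trans (hPQ N v)⟩

theorem UD.rel (φ : L.Formula β) (σ : β → α) :
    UD L (fun N _ (v : α → N) => φ.Realize (fun i => v (σ i))) :=
  ⟨φ.relabel σ, fun N _ v => Formula.realize_relabel⟩

theorem UD.not {P : ∀ (N : Type) [L.Structure N], (α → N) → Prop} (h : UD L P) :
    UD L (fun N _ v => ¬ P N v) := by
  obtain ⟨φ, hφ⟩ := h
  exact ⟨φ.not, fun N _ v => by rw [Formula.realize_not, hφ]⟩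

theorem UD.imp {P Q : ∀ (N : Type) [L.Structure N], (α → N) → Prop} (h : UD L P)
    (h' : UD L Q) : UD L (fun N _ v => P N v → Q N v) := by
  obtain ⟨φ, hφ⟩ := h
  obtain ⟨ψ, hψ⟩ := h'
  exact ⟨φ.imp ψ, fun N _ v => by rw [Formula.realize_imp, hφ, hψ]⟩

theorem UD.and {P Q : ∀ (N : Type) [L.Structure N], (α → N) → Prop} (h : UD L P)
    (h' : UD L Q) : UD L (fun N _ v => P N v ∧ Q N v) := by
  obtain ⟨φ, hφ⟩ := h
  obtain ⟨ψ, hψ⟩ := h'
  exact ⟨φ ⊓ ψ, fun N _ v => by rw [Formula.realize_inf, hφ, hψ]⟩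

theorem UD.iff {P Q : ∀ (N : Type) [L.Structure N], (α → N) → Prop} (h : UD L P)
    (h' : UD L Q) : UD L (fun N _ v => (P N v ↔ Q N v)) :=
  ((h.imp h').and (h'.imp h)).congr fun _ _ _ => iff_iff_implies_and_implies.symm

theorem UD.const (c : Prop) : UD L (fun N _ (_ : α → N) => c) := by
  by_cases hc : c
  · exact ⟨⊤, fun N _ v => by simp [hc]⟩
  · exact ⟨⊥, fun N _ v => by simp [hc]⟩

theorem UD.fin_all [Finite ι] {P : ι → ∀ (N : Type) [L.Structure N], (α → N) → Prop}
    (h : ∀ i, UD L (P i)) : UD L (fun N _ v => ∀ i, P i N v) := by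
  choose φ hφ using h
  exact ⟨Formula.iInf φ, fun N _ v => by rw [Formula.realize_iInf]; simp only [hφ]⟩

theorem UD.fin_ex [Finite ι] {P : ι → ∀ (N : Type) [L.Structure N], (α → N) → Prop}
    (h : ∀ i, UD L (P i)) : UD L (fun N _ v => ∃ i, P i N v) := by
  choose φ hφ using h
  exact ⟨Formula.iSup φ, fun N _ v => by rw [Formula.realize_iSup]; simp only [hφ]⟩

theorem UD.all [Finite β] {P : ∀ (N : Type) [L.Structure N], (α → N) → (β → N) → Prop}
    (h : UD L (fun N _ (v : α ⊕ β → N) => P N (fun i => v (Sum.inl i)) (fun i => v (Sum.inr i)))) :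
    UD L (fun N _ v => ∀ w : β → N, P N v w) := by
  obtain ⟨φ, hφ⟩ := h
  refine ⟨φ.iAlls β, fun N _ v => ?_⟩
  rw [Formula.realize_iAlls]
  exact forall_congr' fun w => hφ N (Sum.elim v w)

theorem UD.ex [Finite β] {P : ∀ (N : Type) [L.Structure N], (α → N) → (β → N) → Prop}
    (h : UD L (fun N _ (v : α ⊕ β → N) => P N (fun i => v (Sum.inl i)) (fun i => v (Sum.inr i)))) :
    UD L (fun N _ v => ∃ w : β → N, P N v w) := by
  obtain ⟨φ, hφ⟩ := h
  refine ⟨φ.iExs β, fun N _ v => ?_⟩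
  rw [Formula.realize_iExs]
  exact exists_congr fun w => hφ N (Sum.elim v w)

theorem UD.transfer {P : ∀ (N : Type) [L.Structure N], Prop}
    (h : UD L (fun N _ (_ : Empty → N) => P N)) {M N : Type} [L.Structure M] [L.Structure N]
    (hMN : N ≅[L] M) : P N ↔ P M := by
  obtain ⟨φ, hφ⟩ := h
  have := hMN.realize_sentence φ
  unfold Sentence.Realize at this
  rwa [hφ, hφ] at this

end

end Pool.Agent.DpTree
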