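import Pool.Agent.DpTree.Defs
import Pool.Agent.DpTree.UD

/-!
# Strong honest definitions imply distality
-/

open FirstOrder FirstOrder.Language

namespace Pool.Agent.DpTree

variable {L : FirstOrder.Language.{0, 0}}

/-- The honest definition scheme `ρ` for the formula `φ` in the structure `N`. -/
def HonestAt (L : FirstOrder.Language.{0, 0}) (N : Type) [L.Structure N] {κ α Q A : Type}
    [Fintype Q] (φ : L.Formula (κ ⊕ α)) (ρ : A → L.Formula ((Q × κ) ⊕ α)) : Prop :=
  ∀ (b : Fin (Fintype.card Q + 1) × κ → N) (x : α → N), ∃ c : Q → Fin (Fintype.card Q + 1),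
    ∀ x' : α → N,
      (∀ a : A, ((ρ a).Realize (Sum.elim (fun q => b (c q.1, q.2)) x) ↔
        (ρ a).Realize (Sum.elim (fun q => b (c q.1, q.2)) x'))) →
      ∀ j, (φ.Realize (Sum.elim (fun q => b (j, q)) x) ↔
        φ.Realize (Sum.elim (fun q => b (j, q)) x'))

theorem HonestAt.ud {κ α Q A : Type} [Fintype Q] [Finite κ] [Finite α] [Finite A]
    (φ : L.Formula (κ ⊕ α)) (ρ : A → L.Formula ((Q × κ) ⊕ α)) :
    UD L (fun N _ (_ : Empty → N) => HonestAt L N φ ρ) := by
  unfold HonestAt
  refine UD.all ?_
  refine UD.all ?_
  refine UD.fin_ex fun c => ?_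
  refine UD.all ?_
  refine UD.imp (UD.fin_all fun a => UD.iff ?_ ?_) (UD.fin_all fun j => UD.iff ?_ ?_)
  · refine (UD.rel (ρ a) (Sum.elim (fun q => Sum.inl (Sum.inl (Sum.inr (c q.1, q.2))))
      (fun i => Sum.inl (Sum.inr i)))).congr fun N _ v => iff_of_eq ?_
    congr 1
    funext i
    cases i <;> rfl
  · refine (UD.rel (ρ a) (Sum.elim (fun q => Sum.inl (Sum.inl (Sum.inr (c q.1, q.2))))
      (fun i => Sum.inr i))).congr fun N _ v => iff_of_eq ?_
    congr 1
    funext i
    cases i <;> rfl
  · refine (UD.rel φ (Sum.elim (fun q => Sum.inl (Sum.inl (Sum.inr (j, q))))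
      (fun i => Sum.inl (Sum.inr i)))).congr fun N _ v => iff_of_eq ?_
    congr 1
    funext i
    cases i <;> rfl
  · refine (UD.rel φ (Sum.elim (fun q => Sum.inl (Sum.inl (Sum.inr (j, q))))
      (fun i => Sum.inr i))).congr fun N _ v => iff_of_eq ?_
    congr 1
    funext i
    cases i <;> rfl

theorem IndiscOver.general {N : Type} [L.Structure N] {I : Type} [LinearOrder I] {m p : ℕ}
    {b : Fin p → N} {a : I → Fin m → N} {J : Set I} (h : IndiscOver L b a J) {D : Type}
    [Finite D] (φ : L.Formula (Fin p ⊕ (D × Fin m))) (g g' : D → I) (hg : ∀ d, g d ∈ J)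
    (hg' : ∀ d, g' d ∈ J) (hgg : ∀ d e, g d < g e ↔ g' d < g' e) :
    φ.Realize (Sum.elim b (fun q => a (g q.1) q.2)) ↔
      φ.Realize (Sum.elim b (fun q => a (g' q.1) q.2)) := by
  classical
  have := Fintype.ofFinite D
  set F : Finset I := Finset.univ.image g with hF
  let s := F.orderEmbOfFin rfl
  have hs : ∀ d, ∃ i, s i = g d := by
    intro d
    have : g d ∈ Set.range s := by
      rw [Finset.range_orderEmbOfFin]
      simp [hF]
    exact this
  choose e he using hs
  have hd : ∀ i, ∃ d, g d = s i := by
    intro i
    have : s i ∈ F := Finset.orderEmbOfFin_mem F rfl i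
    simpa [hF] using this
  choose d hd using hd
  have heq : ∀ x y, g x = g y → g' x = g' y := by
    intro x y hxy
    have h1 := hgg x y
    have h2 := hgg y x
    rw [hxy] at h1 h2
    simp only [lt_self_iff_false, false_iff, not_lt] at h1 h2
    exact le_antisymm h2 h1
  have key := h F.card (φ.relabel (Sum.map id (Prod.map e id))) s (fun i => g' (d i))
    s.strictMono (fun i j hij => by
      rw [← hgg, hd, hd]
      exact s.strictMono hij) (fun i => by rw [← hd]; exact hg _) (fun i => hg' _)
  rw [Formula.realize_relabel, Formula.realize_relabel] at key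
  have e1 : (Sum.elim b (fun q : Fin F.card × Fin m => a (s q.1) q.2)) ∘
      (Sum.map id (Prod.map e id)) = Sum.elim b (fun q => a (g q.1) q.2) := by
    funext i
    rcases i with i | ⟨i, j⟩
    · rfl
    · simp [he]
  have e2 : (Sum.elim b (fun q : Fin F.card × Fin m => a (g' (d q.1)) q.2)) ∘
      (Sum.map id (Prod.map e id)) = Sum.elim b (fun q => a (g' q.1) q.2) := by
    funext i
    rcases i with i | ⟨i, j⟩
    · rfl
    · have : g' (d (e i)) = g' i := heq _ _ (by rw [hd, he])
      simp [this]
  rwa [e1, e2] at key

theorem exists_seq {I : Type} [LinearOrder I] {i₀ : I} (h1 : ∃ i, i < i₀)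
    (h2 : ∀ i, i < i₀ → ∃ j, i < j ∧ j < i₀) {ι : Type} [Finite ι] (s : ι → I) :
    ∃ f : ℕ → I, StrictMono f ∧ ∀ n, f n < i₀ ∧ ∀ q, s q < i₀ → s q < f n := by
  classical
  have := Fintype.ofFinite ι
  have key : ∀ F : Finset I, ∃ i, i < i₀ ∧ ∀ j ∈ F, j < i₀ → j < i := by
    intro F
    induction F using Finset.induction_on with
    | empty =>
      obtain ⟨i, hi⟩ := h1
      exact ⟨i, hi, by simp⟩
    | insert x F _ ih =>
      obtain ⟨i, hi, hiF⟩ := ih
      by_cases hx : x < i₀
      · obtain ⟨j, hj1, hj2⟩ := h2 (max i x) (max_lt hi hx)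
        refine ⟨j, hj2, fun y hy hyi => ?_⟩
        rcases Finset.mem_insert.1 hy with rfl | hy
        · exact (le_max_right _ _).trans_lt hj1
        · exact (hiF y hy hyi).trans ((le_max_left _ _).trans_lt hj1)
      · refine ⟨i, hi, fun y hy hyi => ?_⟩
        rcases Finset.mem_insert.1 hy with rfl | hy
        · exact absurd hyi hx
        · exact hiF y hy hyi
  obtain ⟨i, hi, hiF⟩ := key (Finset.univ.image s)
  let U : Set I := {i | i < i₀ ∧ ∀ q, s q < i₀ → s q < i}
  have hiU : i ∈ U := ⟨hi, fun q hq => hiF _ (by simp) hq⟩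
  have : Nonempty U := ⟨⟨i, hiU⟩⟩
  have : NoMaxOrder U := ⟨fun x => by
    obtain ⟨j, hj1, hj2⟩ := h2 x x.2.1
    exact ⟨⟨j, hj2, fun q hq => (x.2.2 q hq).trans hj1⟩, hj1⟩⟩
  obtain ⟨f, hf⟩ := Nat.exists_strictMono U
  exact ⟨fun n => f n, fun x y hxy => hf hxy, fun n => (f n).2⟩

theorem distal_of_honest {M : Type} [L.Structure M]
    (H : ∀ (κ α : Type) [Finite κ] [Finite α] (φ : L.Formula (κ ⊕ α)),
      ∃ (Q A : Type) (_ : Fintype Q) (_ : Finite A) (ρ : A → L.Formula ((Q × κ) ⊕ α)),
        HonestAt L M φ ρ) : Distal L M := by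
  classical
  intro N _ hN I _ i₀ hlo hlo' hhi hhi' m p a b h0 hb
  have key : ∀ (k : ℕ) (φ : L.Formula (Fin p ⊕ (Fin k × Fin m))) (s : Fin k → I),
      StrictMono s → ∃ s' : Fin k → I, StrictMono s' ∧ (∀ i, s' i ∈ ({i₀}ᶜ : Set I)) ∧
        (φ.Realize (Sum.elim b (fun q => a (s q.1) q.2)) ↔
          φ.Realize (Sum.elim b (fun q => a (s' q.1) q.2))) := by
    intro k φ s hs
    by_cases hex : ∃ q₀, s q₀ = i₀
    · obtain ⟨q₀, hq₀⟩ := hex
      let φ' : L.Formula (Fin m ⊕ (Fin p ⊕ ({q : Fin k // q ≠ q₀} × Fin m))) :=
        φ.relabel (Sum.elim (fun i => Sum.inr (Sum.inl i))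
          (fun q => if h : q.1 = q₀ then Sum.inl q.2 else Sum.inr (Sum.inr (⟨q.1, h⟩, q.2))))
      obtain ⟨Q, A, _, _, ρ, hM⟩ := H _ _ φ'
      have HN : HonestAt L N φ' ρ := ((HonestAt.ud φ' ρ).transfer hN).2 hM
      obtain ⟨f, hf, hfU⟩ := exists_seq hlo hlo' s
      obtain ⟨g, hg, hgU⟩ := exists_seq (I := Iᵒᵈ) (i₀ := OrderDual.toDual i₀) hhi
        (fun i hi => by
          obtain ⟨j, h1, h2⟩ := hhi' (OrderDual.ofDual i) hi
          exact ⟨OrderDual.toDual j, h2, h1⟩)
        (fun q => OrderDual.toDual (s q))
      let x : (Fin p ⊕ ({q : Fin k // q ≠ q₀} × Fin m)) → N :=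
        Sum.elim b (fun q => a (s q.1.1) q.2)
      obtain ⟨c, hc⟩ := HN (fun q => a (f q.1) q.2) x
      obtain ⟨j₀, hj₀⟩ : ∃ j₀, ∀ q, c q ≠ j₀ := by
        by_contra hcon
        push Not at hcon
        have hsurj : Function.Surjective c := hcon
        have := Fintype.card_le_of_surjective c hsurj
        simp at this
      let f' : Fin (Fintype.card Q + 1) → I := fun j =>
        if j < j₀ then f j else if j = j₀ then i₀ else
          OrderDual.ofDual (g (Fintype.card Q + 1 - j))
      have hf'1 : ∀ j, j < j₀ → f' j = f j := fun j hj => by simp only [f', hj, if_true]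
      have hf'2 : f' j₀ = i₀ := by simp only [f', lt_irrefl, if_true, if_false]
      have hf'3 : ∀ j, j₀ < j → f' j = OrderDual.ofDual (g (Fintype.card Q + 1 - j)) := by
        intro j hj
        simp only [f', hj.not_gt, if_false, hj.ne']
      have hf'mono : StrictMono f' := by
        intro j j' hjj
        rcases lt_trichotomy j' j₀ with h | h | h
        · rw [hf'1 j' h, hf'1 j (hjj.trans h)]
          exact hf hjj
        · rw [h, hf'2, hf'1 j (h ▸ hjj)]
          exact (hfU _).1
        · rcases lt_trichotomy j j₀ with h' | h' | h'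
          · rw [hf'1 j h', hf'3 j' h]
            exact ((hfU _).1).trans (hgU _).1
          · rw [h', hf'2, hf'3 j' h]
            exact (hgU _).1
          · rw [hf'3 j h', hf'3 j' h]
            have : g (Fintype.card Q + 1 - j') < g (Fintype.card Q + 1 - j) := by
              apply hg
              have h1 : (j : ℕ) < j' := hjj
              have h2 := j'.2
              omega
            exact this
      -- the formula `θ`
      let S : A → Prop := fun α =>
        (ρ α).Realize (Sum.elim (fun q => a (f (c q.1)) q.2) x)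
      let τ : Prop := φ'.Realize (Sum.elim (fun q => a (f j₀) q) x)
      have hθ : UD L (fun N _ (y : Fin 0 ⊕ (Fin (Fintype.card Q + 1) × Fin m) → N) =>
          ∀ x' : (Fin p ⊕ ({q : Fin k // q ≠ q₀} × Fin m)) → N,
            (∀ α : A, ((ρ α).Realize (Sum.elim (fun q => y (Sum.inr (c q.1, q.2))) x') ↔ S α)) →
            (φ'.Realize (Sum.elim (fun q => y (Sum.inr (j₀, q))) x') ↔ τ)) := by
        refine UD.all ?_
        refine UD.imp (UD.fin_all fun α => UD.iff ?_ (UD.const _)) (UD.iff ?_ (UD.const _))
        · refine (UD.rel (ρ α) (Sum.elim (fun q => Sum.inl (Sum.inr (c q.1, q.2)))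
            (fun i => Sum.inr i))).congr fun N _ v => iff_of_eq ?_
          congr 1
          funext i
          cases i <;> rfl
        · refine (UD.rel φ' (Sum.elim (fun q => Sum.inl (Sum.inr (j₀, q)))
            (fun i => Sum.inr i))).congr fun N _ v => iff_of_eq ?_
          congr 1
          funext i
          cases i <;> rfl
      obtain ⟨θ, hθ⟩ := hθ
      have hswap := h0 _ θ (fun j => f j) f' (fun j j' h => hf h) hf'mono
        (fun _ => Set.mem_univ _) (fun _ => Set.mem_univ _)
      rw [hθ, hθ] at hswap
      have hθf := hswap.1 (fun x' hx' => (hc x' (fun α => (hx' α).symm) j₀).symm)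
      have hconc := hθf x (fun α => ?_)
      · refine ⟨Function.update s q₀ (f j₀), ?_, ?_, ?_⟩
        · intro q q' hqq
          by_cases h1 : q = q₀
          · subst h1
            rw [Function.update_self, Function.update_of_ne hqq.ne']
            exact (hfU _).1.trans (hq₀ ▸ hs hqq)
          · by_cases h2 : q' = q₀
            · subst h2
              rw [Function.update_self, Function.update_of_ne h1]
              exact (hfU _).2 q (hq₀ ▸ hs hqq)
            · rw [Function.update_of_ne h1, Function.update_of_ne h2]
              exact hs hqq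
        · intro q
          by_cases h1 : q = q₀
          · subst h1
            rw [Function.update_self]
            exact (hfU _).1.ne
          · rw [Function.update_of_ne h1]
            intro h2
            apply h1
            apply hs.injective
            rw [hq₀]
            exact h2
        · have e1 : φ'.Realize (Sum.elim (fun q => a i₀ q) x) ↔
              φ.Realize (Sum.elim b (fun q => a (s q.1) q.2)) := by
            rw [Formula.realize_relabel]
            apply iff_of_eq
            congr 1
            funext i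
            rcases i with i | ⟨q, i⟩
            · rfl
            · by_cases h : q = q₀
              · subst h
                simp [hq₀]
              · simp [h, x]
          have e2 : φ'.Realize (Sum.elim (fun q => a (f j₀) q) x) ↔
              φ.Realize (Sum.elim b (fun q => a (Function.update s q₀ (f j₀) q.1) q.2)) := by
            rw [Formula.realize_relabel]
            apply iff_of_eq
            congr 1
            funext i
            rcases i with i | ⟨q, i⟩
            · rfl
            · by_cases h : q = q₀
              · subst h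
                simp
              · simp [h, x]
          rw [← e1, ← e2]
          simp only [Sum.elim_inr, hf'2] at hconc
          exact hconc
      · have hgen := hb.general (D := {q : Fin k // q ≠ q₀} ⊕ Q)
          ((ρ α).relabel (Sum.elim (fun q => Sum.inr (Sum.inr q.1, q.2))
            (Sum.elim (fun i => Sum.inl i) (fun q => Sum.inr (Sum.inl q.1, q.2)))))
          (Sum.elim (fun q => s q.1) (fun q => f' (c q)))
          (Sum.elim (fun q => s q.1) (fun q => f (c q))) ?_ ?_ ?_
        · rw [Formula.realize_relabel, Formula.realize_relabel] at hgen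
          have e1 : ∀ h : Q → I, (Sum.elim b (fun q : ({q : Fin k // q ≠ q₀} ⊕ Q) × Fin m =>
              a (Sum.elim (fun q => s q.1) (fun q => h q) q.1) q.2)) ∘
              (Sum.elim (fun q : Q × Fin m => Sum.inr (Sum.inr q.1, q.2))
              (Sum.elim (fun i => Sum.inl i)
                (fun q : {q : Fin k // q ≠ q₀} × Fin m => Sum.inr (Sum.inl q.1, q.2)))) =
              Sum.elim (fun q => a (h q.1) q.2) x := by
            intro h
            funext i
            rcases i with ⟨q, i⟩ | i | ⟨q, i⟩ <;> rfl
          rw [e1, e1] at hgen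
          exact hgen
        · rintro (⟨q, hq⟩ | q)
          · intro h2
            exact hq (hs.injective (h2.trans hq₀.symm))
          · intro h2
            exact hj₀ q (hf'mono.injective (h2.trans hf'2.symm))
        · rintro (⟨q, hq⟩ | q)
          · intro h2
            exact hq (hs.injective (h2.trans hq₀.symm))
          · exact (hfU _).1.ne
        · -- comparison of the two order patterns
          have hcase : ∀ (q : Fin k) (hq : q ≠ q₀) (r : Q),
              ((s q < f' (c r) ↔ s q < f (c r)) ∧ (f' (c r) < s q ↔ f (c r) < s q)) := by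
            intro q hq r
            rcases lt_or_gt_of_ne hq with h | h
            · -- `s q < i₀`
              have h1 : s q < i₀ := hq₀ ▸ hs h
              have h2 : s q < f (c r) := (hfU _).2 q h1
              have h3 : s q < f' (c r) := by
                rcases lt_trichotomy (c r) j₀ with h' | h' | h'
                · rw [hf'1 _ h']; exact h2
                · exact absurd h' (hj₀ r)
                · rw [hf'3 _ h']; exact h1.trans (hgU _).1
              exact ⟨iff_of_true h3 h2, iff_of_false h3.not_gt h2.not_gt⟩
            · have h1 : i₀ < s q := hq₀ ▸ hs h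
              have h2 : f (c r) < s q := (hfU _).1.trans h1
              have h3 : f' (c r) < s q := by
                rcases lt_trichotomy (c r) j₀ with h' | h' | h'
                · rw [hf'1 _ h']; exact h2
                · exact absurd h' (hj₀ r)
                · rw [hf'3 _ h']; exact (hgU _).2 q h1
              exact ⟨iff_of_false h3.not_gt h2.not_gt, iff_of_true h3 h2⟩
          rintro (⟨q, hq⟩ | q) (⟨r, hr⟩ | r)
          · exact Iff.rfl
          · exact (hcase q hq r).1
          · exact (hcase r hr q).2
          · have h1 : f' (c q) < f' (c r) ↔ c q < c r := hf'mono.lt_iff_lt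
            have h2 : f (c q) < f (c r) ↔ c q < c r := by
              rw [hf.lt_iff_lt]
              exact Iff.rfl
            exact h1.trans h2.symm
    · push Not at hex
      exact ⟨s, hs, hex, Iff.rfl⟩
  intro k φ s t hs ht _ _
  obtain ⟨s', hs', hs'i, hss⟩ := key k φ s hs
  obtain ⟨t', ht', ht'i, htt⟩ := key k φ t ht
  rw [hss, htt]
  exact hb k φ s' t' hs' ht' hs'i ht'i

end Pool.Agent.DpTree
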