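import Pool.Agent.DpTree.Lang

/-!
# Dp-minimality of the structure
-/

open FirstOrder FirstOrder.Language

namespace Pool.Agent.DpTree

theorem ultra1 {x : Elt} {z w : List Elt} (hz : z ≠ []) {n : ℕ} (h1 : n ≤ val (x :: w))
    (h2 : n ≤ val (z ++ w)) : n ≤ val (x :: z) := by
  rw [le_val_iff (by simp)] at h1 ⊢
  rw [le_val_iff (by simp [hz])] at h2
  refine ⟨fun y hy => ?_, fun m hm => ?_⟩
  · rcases List.mem_cons.1 hy with rfl | hy
    · exact h1.1 y (by simp)
    · exact h2.1 y (by simp [hy])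
  · have e1 := h1.2 m hm
    have e2 := h2.2 m hm
    simp only [xr_cons, xr_append] at *
    revert e1 e2
    cases x.bit m <;> cases xr (fun x : Elt => x.bit m) z <;>
      cases xr (fun x : Elt => x.bit m) w <;> simp

theorem ultra2 {x : Elt} {z w : List Elt} (hz : z ≠ []) {n : ℕ} (h2 : n ≤ val (x :: z))
    (h1 : n ≤ val (x :: w)) : n ≤ val (z ++ w) := by
  rw [le_val_iff (by simp)] at h1 h2
  rw [le_val_iff (by simp [hz])]
  refine ⟨fun y hy => ?_, fun m hm => ?_⟩
  · rcases List.mem_append.1 hy with hy | hy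
    · exact h2.1 y (by simp [hy])
    · exact h1.1 y (by simp [hy])
  · have e1 := h1.2 m hm
    have e2 := h2.2 m hm
    simp only [xr_cons, xr_append] at *
    revert e1 e2
    cases x.bit m <;> cases xr (fun x : Elt => x.bit m) z <;>
      cases xr (fun x : Elt => x.bit m) w <;> simp

theorem qtrick {x : Elt} {z w : List Elt} (hz : Alw (x :: z)) {k : ℕ}
    (hk : 1 ≤ k) : val (x :: z) + k ≤ val (x :: w) ↔ val (z ++ w) + k ≤ val (x :: w) := by
  have key : (val (x :: z) < val (x :: w) ∨ val (z ++ w) < val (x :: w)) →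
      val (x :: z) = val (z ++ w) := by
    intro h
    have hC : val (z ++ w) ≠ val (x :: w) := by
      intro heq
      rcases h with h | h
      · have := ultra1 hz.not_nil (le_refl (val (x :: w))) heq.ge
        omega
      · omega
    have := val_cons_eq (w := w) hz (fun h => absurd h hC)
    omega
  constructor
  · intro h
    have := key (Or.inl (by omega))
    omega
  · intro h
    have := key (Or.inr (by omega))
    omega

/-- Upward balls. -/
def Up (n : ℕ) : Set Elt := {x | n ≤ x.lev}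

/-- Balls given by nodes. -/
def Node (z : List Elt) (n : ℕ) : Set Elt := {x | Alw (x :: z) ∧ n ≤ val (x :: z)}

/-- Laminarity of a pair of sets. -/
def Lam {X : Type} (B C : Set X) : Prop := B ⊆ C ∨ C ⊆ B ∨ Disjoint B C

theorem Lam.symm {X : Type} {B C : Set X} (h : Lam B C) : Lam C B := by
  rcases h with h | h | h
  · exact Or.inr (Or.inl h)
  · exact Or.inl h
  · exact Or.inr (Or.inr h.symm)

/-- Balls. -/
def IsBall (B : Set Elt) : Prop := (∃ n, B = Up n) ∨ ∃ z n, B = Node z n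

theorem alw_of_alw {x y : Elt} {z w : List Elt} (h1 : Alw (x :: z)) (h2 : Alw (x :: w))
    (h3 : Alw (y :: w)) : Alw (y :: z) := by
  refine ⟨fun d => ?_, ?_⟩
  · have e1 := h1.1 d
    have e2 := h2.1 d
    have e3 := h3.1 d
    simp only [xr_cons] at *
    revert e1 e2 e3
    cases decide (x.lev = d) <;> cases decide (y.lev = d) <;>
      cases xr (fun x : Elt => decide (x.lev = d)) z <;>
      cases xr (fun x : Elt => decide (x.lev = d)) w <;> simp
  · have e1 := h1.2
    have e2 := h2.2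
    have e3 := h3.2
    simp only [xr_cons] at *
    revert e1 e2 e3
    cases x.srt <;> cases y.srt <;> cases xr Elt.srt z <;> cases xr Elt.srt w <;> simp

theorem node_subset {x : Elt} {z w : List Elt} {n m : ℕ} (hnm : n ≤ m) (hx : x ∈ Node z n)
    (hx' : x ∈ Node w m) : Node w m ⊆ Node z n := by
  rintro y ⟨hy1, hy2⟩
  have hz := hx.1.not_nil
  refine ⟨alw_of_alw hx.1 hx'.1 hy1, ?_⟩
  exact ultra1 hz (hnm.trans hy2) (ultra2 hz hx.2 (hnm.trans hx'.2))

theorem lev_eq_of_alw {x y : Elt} {z : List Elt} (hx : Alw (x :: z)) (hy : Alw (y :: z)) :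
    x.lev = y.lev := by
  have e1 := hx.1 y.lev
  have e2 := hy.1 y.lev
  simp only [xr_cons] at *
  by_contra hne
  rw [show decide (x.lev = y.lev) = false by simpa using hne] at e1
  simp at e1
  rw [e1] at e2
  simp at e2

theorem lam_up_node (m : ℕ) (z : List Elt) (n : ℕ) : Lam (Node z n) (Up m) := by
  by_cases h : ∃ x ∈ Node z n, m ≤ x.lev
  · obtain ⟨x, hx, hm⟩ := h
    refine Or.inl fun y hy => ?_
    change m ≤ y.lev
    rw [← lev_eq_of_alw hx.1 hy.1]
    exact hm
  · refine Or.inr (Or.inr ?_)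
    rw [Set.disjoint_left]
    intro x hx hx'
    exact h ⟨x, hx, hx'⟩

theorem lam_of_isBall {B C : Set Elt} (hB : IsBall B) (hC : IsBall C) : Lam B C := by
  rcases hB with ⟨n, rfl⟩ | ⟨z, n, rfl⟩ <;> rcases hC with ⟨m, rfl⟩ | ⟨w, m, rfl⟩
  · rcases le_total n m with h | h
    · exact Or.inr (Or.inl fun x hx => h.trans hx)
    · exact Or.inl fun x hx => h.trans hx
  · exact (lam_up_node _ _ _).symm
  · exact lam_up_node _ _ _
  · by_cases h : ∃ x, x ∈ Node z n ∧ x ∈ Node w m
    · obtain ⟨x, hx, hx'⟩ := h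
      rcases le_total n m with h | h
      · exact Or.inr (Or.inl (node_subset h hx hx'))
      · exact Or.inl (node_subset h hx' hx)
    · refine Or.inr (Or.inr ?_)
      rw [Set.disjoint_left]
      intro x hx hx'
      exact h ⟨x, hx, hx'⟩

theorem eqv_of_balls {κ : Type} {K : ℕ} (s : κ → Elt) (x x' : Elt)
    (h1 : ∀ l : List κ, Alw (l.map s) → ∀ k ≤ K + 1,
      (x ∈ Up (val (l.map s) + k) ↔ x' ∈ Up (val (l.map s) + k)) ∧
      (x ∈ Up (val (l.map s) + 1 - k) ↔ x' ∈ Up (val (l.map s) + 1 - k)))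
    (h2 : ∀ l l' : List κ, Alw (l'.map s) → ∀ k ≤ K + 1,
      (x ∈ Node (l.map s) (val (l'.map s) + k) ↔ x' ∈ Node (l.map s) (val (l'.map s) + k)) ∧
      (x ∈ Node (l.map s) (val (l'.map s) + 1 - k) ↔
        x' ∈ Node (l.map s) (val (l'.map s) + 1 - k))) :
    Eqv K (ext s x) (ext s x') := by
  have hA : ∀ l : List κ, Alw (x :: l.map s) ↔ Alw (x' :: l.map s) := by
    intro l
    have := (h2 l [] (by simp) 0 (Nat.zero_le _)).1
    simpa [Node] using this
  have cmpL : ∀ l : List κ, Alw (l.map s) → Cmp (K + 1) x.lev x'.lev (val (l.map s)) := by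
    intro l hl k hk
    have e1 := (h1 l hl k hk).1
    have e2 := (h1 l hl k hk).2
    simp only [Up, Set.mem_ofPred_eq] at e1 e2
    omega
  have cmpW : ∀ l l' : List κ, Alw (x :: l.map s) → Alw (l'.map s) →
      Cmp (K + 1) (val (x :: l.map s)) (val (x' :: l.map s)) (val (l'.map s)) := by
    intro l l' hl hl' k hk
    have e1 := (h2 l l' hl' k hk).1
    have e2 := (h2 l l' hl' k hk).2
    have hl2 := (hA l).1 hl
    simp only [Node, Set.mem_ofPred_eq, hl, hl2, true_and] at e1 e2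
    omega
  have hlev : ∀ l : List κ, Alw (x :: l.map s) → ∃ i, (s i).lev = x.lev ∧ x'.lev = x.lev := by
    intro l hl
    obtain ⟨y, hy, hyx⟩ := hl.exists_lev
    obtain ⟨i, _, rfl⟩ := List.mem_map.1 hy
    refine ⟨i, hyx, ?_⟩
    have := cmpL [i, i] (by simp) 0 (Nat.zero_le _)
    simp only [List.map_cons, List.map_nil, val_pair, add_zero] at this
    omega
  let P : Set (ℕ × ℕ) := {u | (∃ l : List κ, Alw (l.map s) ∧ u = (val (l.map s), val (l.map s))) ∨
    u = (x.lev, x'.lev) ∨
    ∃ l : List κ, Alw (x :: l.map s) ∧ u = (val (x :: l.map s), val (x' :: l.map s))}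
  have hP : OrdEq K P := by
    rintro u (⟨l, hl, rfl⟩ | rfl | ⟨l, hl, rfl⟩) v (⟨l', hl', rfl⟩ | rfl | ⟨l', hl', rfl⟩) k hk
    · exact Iff.rfl
    · exact (cmpL l hl k (by omega)).2
    · exact (cmpW l' l hl' hl k (by omega)).2
    · exact (cmpL l' hl' k (by omega)).1
    · simp
    · obtain ⟨i, hi, hxx⟩ := hlev l' hl'
      have := (cmpW l' [i, i] hl' (by simp) k (by omega)).2
      simp only [List.map_cons, List.map_nil, val_pair, hi] at this
      simp only [hxx]
      exact this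
    · exact (cmpW l l' hl hl' k (by omega)).1
    · obtain ⟨i, hi, hxx⟩ := hlev l hl
      have := (cmpW l [i, i] hl (by simp) k (by omega)).1
      simp only [List.map_cons, List.map_nil, val_pair, hi] at this
      simp only [hxx]
      exact this
    · simp only
      have hl2 := (hA l).1 hl
      have hl2' := (hA l').1 hl'
      have hQ : Alw ((l ++ l').map s) := by
        rw [List.map_append]
        exact hl.cons_cons hl'
      have hQ' : Alw ((l' ++ l).map s) := by
        rw [List.map_append]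
        exact hl'.cons_cons hl
      rcases Nat.eq_zero_or_pos k with rfl | hk0
      · -- `W ≤ W'` iff not `W' + 1 ≤ W`
        have e1 := qtrick hl' (w := l.map s) (k := 1) le_rfl
        have e2 := qtrick hl2' (w := l.map s) (k := 1) le_rfl
        have e3 := (cmpW l (l' ++ l) hl hQ' 1 (by omega)).2
        simp only [List.map_append] at e3
        omega
      · have e1 := qtrick hl (w := l'.map s) hk0
        have e2 := qtrick hl2 (w := l'.map s) hk0
        have e3 := (cmpW l' (l ++ l') hl' hQ k (by omega)).2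
        simp only [List.map_append] at e3
        rw [e1, e2, e3]
  exact final hP (fun _ => Iff.rfl) hA (fun l hl => Or.inl ⟨l, hl, rfl⟩) (Or.inr (Or.inl rfl))
    (fun l hl => ⟨_, Or.inr (Or.inr ⟨l, hl, rfl⟩), _, Or.inr (Or.inr ⟨l, hl, rfl⟩),
      by simp⟩)

/-- Index type for the balls attached to a tuple. -/
abbrev Gam (κ : Type) [Fintype κ] (K : ℕ) : Type :=
  Option (Short κ) × Short κ × Fin (K + 2) × Bool

/-- The balls attached to a tuple. -/
noncomputable def ball {κ : Type} [Fintype κ] {K : ℕ} (s : κ → Elt) (γ : Gam κ K) : Set Elt :=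
  γ.1.elim
    (Up (if γ.2.2.2 then val (γ.2.1.1.map s) + γ.2.2.1 else val (γ.2.1.1.map s) + 1 - γ.2.2.1))
    (fun l => Node (l.1.map s)
      (if γ.2.2.2 then val (γ.2.1.1.map s) + γ.2.2.1 else val (γ.2.1.1.map s) + 1 - γ.2.2.1))

theorem isBall_ball {κ : Type} [Fintype κ] {K : ℕ} (s : κ → Elt) (γ : Gam κ K) :
    IsBall (ball s γ) := by
  obtain ⟨_ | l, l', k, c⟩ := γ
  · exact Or.inl ⟨_, rfl⟩
  · exact Or.inr ⟨_, _, rfl⟩

theorem eqv_of_ball {κ : Type} [Fintype κ] {K : ℕ} (s : κ → Elt) (x x' : Elt)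
    (h : ∀ γ : Gam κ K, x ∈ ball s γ ↔ x' ∈ ball s γ) : Eqv K (ext s x) (ext s x') := by
  apply eqv_of_balls
  · intro l _ k hk
    obtain ⟨m, hm, hs⟩ := exists_short l
    rw [(hs.map s).val]
    exact ⟨h (none, ⟨m, hm⟩, ⟨k, by omega⟩, true), h (none, ⟨m, hm⟩, ⟨k, by omega⟩, false)⟩
  · intro l l' _ k hk
    obtain ⟨m, hm, hs⟩ := exists_short l
    obtain ⟨m', hm', hs'⟩ := exists_short l'
    have hN : ∀ n, Node (l.map s) n = Node (m.map s) n := by
      intro n
      ext y
      simp only [Node, Set.mem_ofPred_eq]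
      rw [((hs.map s).cons y).alw, ((hs.map s).cons y).val]
    rw [(hs'.map s).val, hN, hN]
    exact ⟨h (some ⟨m, hm⟩, ⟨m', hm'⟩, ⟨k, by omega⟩, true),
      h (some ⟨m, hm⟩, ⟨m', hm'⟩, ⟨k, by omega⟩, false)⟩

theorem card_le_of_laminar {T X ι : Type} [Fintype T] [Fintype ι] (G : T → Set X)
    (hG : ∀ t t', Lam (G t) (G t')) (f : ι → X)
    (hf : ∀ i j, (∀ t, f i ∈ G t ↔ f j ∈ G t) → i = j) :
    Fintype.card ι ≤ Fintype.card T + 1 := by
  classical
  have hmin : ∀ i, ∃ o : Option T, (o = none ∧ ∀ t, f i ∉ G t) ∨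
      ∃ t, o = some t ∧ ∀ t', f i ∈ G t' ↔ G t ⊆ G t' := by
    intro i
    by_cases hne : ∃ t, f i ∈ G t
    · obtain ⟨t, ht⟩ := Set.Finite.exists_minimalFor G {t | f i ∈ G t} (Set.toFinite _) hne
      have ht1 : f i ∈ G t := ht.1
      refine ⟨some t, Or.inr ⟨t, rfl, fun t' => ⟨fun ht' => ?_, fun h => h ht1⟩⟩⟩
      rcases hG t t' with h | h | h
      · exact h
      · exact ht.2 ht' h
      · exact absurd ht' (Set.disjoint_left.1 h ht1)
    · push Not at hne
      exact ⟨none, Or.inl ⟨rfl, hne⟩⟩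
  choose m hm using hmin
  have hinj : Function.Injective m := by
    intro i j hij
    apply hf
    intro t
    rcases hm i with ⟨h1, h2⟩ | ⟨t₁, h1, h2⟩ <;> rcases hm j with ⟨h3, h4⟩ | ⟨t₂, h3, h4⟩
    · exact iff_of_false (h2 t) (h4 t)
    · rw [h1, h3] at hij; cases hij
    · rw [h1, h3] at hij; cases hij
    · rw [h1, h3] at hij
      cases hij
      rw [h2, h4]
  have := Fintype.card_le_of_injective m hinj
  simpa using this

/-- The finite pattern. -/
def Pat (L : FirstOrder.Language.{0, 0}) (N : Type) [L.Structure N] {m k : ℕ} (R : ℕ)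
    (φ : L.Formula (Unit ⊕ Fin m)) (ψ : L.Formula (Unit ⊕ Fin k)) : Prop :=
  ∃ (a : Fin R × Fin m → N), ∃ (b : Fin R × Fin k → N), ∀ i j : Fin R, ∃ x : Unit → N,
    (∀ i', φ.Realize (Sum.elim x (fun q => a (i', q))) ↔ i' = i) ∧
    (∀ j', ψ.Realize (Sum.elim x (fun q => b (j', q))) ↔ j' = j)

theorem Pat.ud {L : FirstOrder.Language.{0, 0}} {m k : ℕ} (R : ℕ)
    (φ : L.Formula (Unit ⊕ Fin m)) (ψ : L.Formula (Unit ⊕ Fin k)) :
    UD L (fun N _ (_ : Empty → N) => Pat L N R φ ψ) := by
  unfold Pat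
  refine UD.ex ?_
  refine UD.ex ?_
  refine UD.fin_all fun i => UD.fin_all fun j => ?_
  refine UD.ex ?_
  refine UD.and (UD.fin_all fun i' => UD.iff ?_ (UD.const _))
    (UD.fin_all fun j' => UD.iff ?_ (UD.const _))
  · refine (UD.rel φ (Sum.elim (fun q => Sum.inr q)
      (fun q => Sum.inl (Sum.inl (Sum.inr (i', q)))))).congr fun N _ v => iff_of_eq ?_
    congr 1
    funext i
    cases i <;> rfl
  · refine (UD.rel ψ (Sum.elim (fun q => Sum.inr q)
      (fun q => Sum.inl (Sum.inr (j', q))))).congr fun N _ v => iff_of_eq ?_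
    congr 1
    funext i
    cases i <;> rfl

theorem no_pattern {m k : ℕ} (φ : Ltree.Formula (Unit ⊕ Fin m))
    (ψ : Ltree.Formula (Unit ⊕ Fin k)) : ∃ R : ℕ, ¬ Pat Ltree Elt R φ ψ := by
  classical
  obtain ⟨K₁, h₁⟩ := realize_invariant' φ
  obtain ⟨K₂, h₂⟩ := realize_invariant' ψ
  have := Fintype.ofFinite (Gam (Fin m) K₁)
  have := Fintype.ofFinite (Gam (Fin k) K₂)
  refine ⟨Fintype.card (Gam (Fin m) K₁) + Fintype.card (Gam (Fin k) K₂) + 2, ?_⟩
  set C := Fintype.card (Gam (Fin m) K₁) + Fintype.card (Gam (Fin k) K₂) with hC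
  rintro ⟨a, b, hab⟩
  choose x hx using hab
  have hcard := card_le_of_laminar
    (T := (Fin (C + 2) × Gam (Fin m) K₁) ⊕ (Fin (C + 2) × Gam (Fin k) K₂))
    (ι := Fin (C + 2) × Fin (C + 2))
    (Sum.elim (fun t => ball (fun q => a (t.1, q)) t.2) (fun t => ball (fun q => b (t.1, q)) t.2))
    (by
      rintro (t | t) (t' | t') <;> exact lam_of_isBall (isBall_ball _ _) (isBall_ball _ _))
    (fun p => x p.1 p.2 ()) (by
      rintro ⟨i, j⟩ ⟨i', j'⟩ h
      simp only at h
      have e1 : i = i' := by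
        have hE := eqv_of_ball (fun q => a (i, q)) (x i j ()) (x i' j' ())
          (fun γ => h (Sum.inl (i, γ)))
        have hr := h₁ (Sum.elim (x i j) (fun q => a (i, q)))
          (Sum.elim (x i' j') (fun q => a (i, q))) (hE.reindex (by
            rintro (⟨⟩ | q)
            · exact ⟨none, rfl, rfl⟩
            · exact ⟨some q, rfl, rfl⟩))
        rw [(hx i j).1 i, (hx i' j').1 i] at hr
        exact hr.1 rfl
      have e2 : j = j' := by
        have hE := eqv_of_ball (fun q => b (j, q)) (x i j ()) (x i' j' ())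
          (fun γ => h (Sum.inr (j, γ)))
        have hr := h₂ (Sum.elim (x i j) (fun q => b (j, q)))
          (Sum.elim (x i' j') (fun q => b (j, q))) (hE.reindex (by
            rintro (⟨⟩ | q)
            · exact ⟨none, rfl, rfl⟩
            · exact ⟨some q, rfl, rfl⟩))
        rw [(hx i j).2 j, (hx i' j').2 j] at hr
        exact hr.1 rfl
      rw [e1, e2])
  simp only [Fintype.card_prod, Fintype.card_sum, Fintype.card_fin] at hcard
  have hC' : (C + 2) * Fintype.card (Gam (Fin m) K₁) + (C + 2) * Fintype.card (Gam (Fin k) K₂)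
      = (C + 2) * C := by
    rw [hC]; ring
  simp only [Gam] at hcard hC'
  nlinarith [hcard, hC']

/-- Dp-minimality of the structure. -/
theorem dpMinimal : DpMinimal Ltree Elt := by
  intro N _ hN m k φ ψ a b hpat
  obtain ⟨R, hR⟩ := no_pattern φ ψ
  apply hR
  rw [← (Pat.ud R φ ψ).transfer hN]
  refine ⟨fun q => a q.1 q.2, fun q => b q.1 q.2, fun i j => ?_⟩
  obtain ⟨x, hx1, hx2⟩ := hpat i j
  refine ⟨fun _ => x, fun i' => ?_, fun j' => ?_⟩
  · rw [hx1 i', Fin.ext_iff]
  · rw [hx2 j', Fin.ext_iff]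

end Pool.Agent.DpTree
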