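import Pool.Agent.DpTree.Basic

/-!
# The equivalence relations `Eqv K` and the extension property
-/

namespace Pool.Agent.DpTree

/-- Truncated order equivalence of a set of pairs of natural numbers. -/
def OrdEq (K : ℕ) (P : Set (ℕ × ℕ)) : Prop :=
  ∀ u ∈ P, ∀ v ∈ P, ∀ k ≤ K, (u.1 + k ≤ v.1 ↔ u.2 + k ≤ v.2)

theorem OrdEq.mono {K K' : ℕ} {P P' : Set (ℕ × ℕ)} (h : OrdEq K P) (hK : K' ≤ K)
    (hP : P' ⊆ P) : OrdEq K' P' :=
  fun u hu v hv k hk => h u (hP hu) v (hP hv) k (hk.trans hK)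

theorem OrdEq.insert_pair {K : ℕ} {P : Set (ℕ × ℕ)} (h : OrdEq K P) {β β' : ℕ}
    (hb : ∀ v ∈ P, ∀ k ≤ K, (β + k ≤ v.1 ↔ β' + k ≤ v.2) ∧ (v.1 + k ≤ β ↔ v.2 + k ≤ β')) :
    OrdEq K (insert (β, β') P) := by
  intro u hu v hv k hk
  rcases Set.mem_insert_iff.1 hu with rfl | hu <;> rcases Set.mem_insert_iff.1 hv with rfl | hv
  · simp
  · exact (hb v hv k hk).1
  · exact (hb u hu k hk).2
  · exact h u hu v hv k hk

theorem OrdEq.exists_cut {K : ℕ} {P : Set (ℕ × ℕ)} (hP : OrdEq (2 * K + 2) P)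
    (h0 : ((0 : ℕ), (0 : ℕ)) ∈ P) (β : ℕ) : ∃ β', OrdEq K (insert (β, β') P) := by
  have hPK : OrdEq K P := hP.mono (by omega) subset_rfl
  by_cases h1 : ∃ p ∈ P, p.1 ≤ β ∧ β ≤ p.1 + K
  · obtain ⟨p, hp, hp1, hp2⟩ := h1
    obtain ⟨e, rfl⟩ := Nat.exists_eq_add_of_le hp1
    refine ⟨p.2 + e, hPK.insert_pair fun v hv k hk => ⟨?_, ?_⟩⟩
    · have := hP p hp v hv (e + k) (by omega)
      omega
    · by_cases hke : e ≤ k
      · have := hP v hv p hp (k - e) (by omega)
        omega
      · have := hP p hp v hv (e - k + 1) (by omega)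
        omega
  · by_cases h2 : ∃ p ∈ P, β < p.1 ∧ p.1 ≤ β + K
    · obtain ⟨p, hp, hp1, hp2⟩ := h2
      obtain ⟨e, he⟩ := Nat.exists_eq_add_of_lt hp1
      have hβ : K < β := by
        by_contra hcon
        exact h1 ⟨_, h0, by simp, by simp; omega⟩
      have h00 := hP _ h0 p hp (K + e + 1) (by omega)
      simp only [zero_add] at h00
      have hge : K + e + 1 ≤ p.2 := h00.1 (by omega)
      refine ⟨p.2 - (e + 1), hPK.insert_pair fun v hv k hk => ⟨?_, ?_⟩⟩
      · by_cases hke : e + 1 ≤ k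
        · have := hP p hp v hv (k - (e + 1)) (by omega)
          omega
        · have := hP v hv p hp (e + 1 - k + 1) (by omega)
          omega
      · have := hP v hv p hp (k + (e + 1)) (by omega)
        omega
    · push Not at h1 h2
      let S : Set ℕ := {n | ∃ p ∈ P, p.1 = n ∧ n ≤ β}
      have hS : S.Nonempty := ⟨0, _, h0, rfl, by omega⟩
      have hbdd : BddAbove S := ⟨β, by rintro n ⟨_, _, _, h⟩; exact h⟩
      obtain ⟨p, hp, hp1, hp2⟩ := Nat.sSup_mem hS hbdd
      have hmax : ∀ v ∈ P, v.1 ≤ β → v.1 ≤ p.1 := by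
        intro v hv hvβ
        rw [hp1]
        exact le_csSup hbdd ⟨v, hv, rfl, hvβ⟩
      rw [← hp1] at hp2
      have hgap := h1 p hp hp2
      refine ⟨p.2 + K + 1, hPK.insert_pair fun v hv k hk => ?_⟩
      by_cases hvβ : v.1 ≤ β
      · have hle := hmax v hv hvβ
        have e1 := hP v hv p hp 0 (by omega)
        constructor <;> constructor <;> intro <;> omega
      · have hgt := h2 v hv (by omega)
        have e1 := hP p hp v hv (2 * K + 2) le_rfl
        constructor <;> constructor <;> intro <;> omega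

theorem exists_nearest (K : ℕ) {S : Set ℕ} (hS : S.Nonempty) (β : ℕ) :
    ∃ r₁ ∈ S, ∃ r₂ ∈ S, ∀ β',
      (∀ k ≤ K, (β + k ≤ r₁ ↔ β' + k ≤ r₁) ∧ (r₁ + k ≤ β ↔ r₁ + k ≤ β')) →
      (∀ k ≤ K, (β + k ≤ r₂ ↔ β' + k ≤ r₂) ∧ (r₂ + k ≤ β ↔ r₂ + k ≤ β')) →
      ∀ r ∈ S, ∀ k ≤ K, (β + k ≤ r ↔ β' + k ≤ r) ∧ (r + k ≤ β ↔ r + k ≤ β') := by
  have h1 : ∃ r₁ ∈ S, ∀ r ∈ S, r ≤ β → r ≤ r₁ ∧ r₁ ≤ β := by
    by_cases hne : ∃ r ∈ S, r ≤ β
    · have hbdd : BddAbove {r | r ∈ S ∧ r ≤ β} := ⟨β, fun r hr => hr.2⟩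
      have hmem := Nat.sSup_mem (s := {r | r ∈ S ∧ r ≤ β}) hne hbdd
      exact ⟨_, hmem.1, fun r hr hrβ => ⟨le_csSup hbdd ⟨hr, hrβ⟩, hmem.2⟩⟩
    · obtain ⟨r, hr⟩ := hS
      exact ⟨r, hr, fun r' hr' h => absurd ⟨r', hr', h⟩ hne⟩
  have h2 : ∃ r₂ ∈ S, ∀ r ∈ S, β < r → r₂ ≤ r ∧ β < r₂ := by
    by_cases hne : ∃ r ∈ S, β < r
    · have hmem := Nat.sInf_mem (s := {r | r ∈ S ∧ β < r}) hne
      exact ⟨_, hmem.1, fun r hr hrβ => ⟨Nat.sInf_le ⟨hr, hrβ⟩, hmem.2⟩⟩
    · obtain ⟨r, hr⟩ := hS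
      exact ⟨r, hr, fun r' hr' h => absurd ⟨r', hr', h⟩ hne⟩
  obtain ⟨r₁, hr₁, H1⟩ := h1
  obtain ⟨r₂, hr₂, H2⟩ := h2
  refine ⟨r₁, hr₁, r₂, hr₂, fun β' c1 c2 r hr k hk => ?_⟩
  rcases le_or_gt r β with hrβ | hrβ
  · obtain ⟨e1, e2⟩ := H1 r hr hrβ
    have z0 := c1 0 (Nat.zero_le _)
    simp only [add_zero] at z0
    by_cases hke : r + k ≤ r₁
    · constructor <;> constructor <;> intro <;> omega
    · have z1 := c1 (k - (r₁ - r)) (by omega)
      constructor <;> constructor <;> intro <;> omega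
  · obtain ⟨e1, e2⟩ := H2 r hr hrβ
    have z0 := c2 0 (Nat.zero_le _)
    simp only [add_zero] at z0
    by_cases hke : r₂ + k ≤ r
    · constructor <;> constructor <;> intro <;> omega
    · have z1 := c2 (k - (r - r₂)) (by omega)
      constructor <;> constructor <;> intro <;> omega

universe u v w

/-- The equivalence relations on tuples. -/
def Eqv {ι : Type u} (K : ℕ) (s t : ι → Elt) : Prop :=
  (∀ l : List ι, Alw (l.map s) ↔ Alw (l.map t)) ∧
    ∀ l l' : List ι, Alw (l.map s) → Alw (l'.map s) → ∀ k ≤ K,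
      (val (l.map s) + k ≤ val (l'.map s) ↔ val (l.map t) + k ≤ val (l'.map t))

/-- The set of pairs of values of corresponding allowed lists. -/
def pts {ι : Type u} (s t : ι → Elt) : Set (ℕ × ℕ) :=
  {u | ∃ l : List ι, Alw (l.map s) ∧ u = (val (l.map s), val (l.map t))}

theorem zero_mem_pts {ι : Type u} (s t : ι → Elt) : ((0 : ℕ), (0 : ℕ)) ∈ pts s t :=
  ⟨[], by simp, by simp⟩

section

variable {ι : Type u} {ι' : Type v} {K : ℕ} {s t r : ι → Elt}

theorem Eqv.ordEq (h : Eqv K s t) : OrdEq K (pts s t) := by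
  rintro _ ⟨l, hl, rfl⟩ _ ⟨l', hl', rfl⟩ k hk
  exact h.2 l l' hl hl' k hk

theorem eqv_of_ordEq (h : ∀ l : List ι, Alw (l.map s) ↔ Alw (l.map t))
    (h' : OrdEq K (pts s t)) : Eqv K s t :=
  ⟨h, fun l l' hl hl' k hk => h' _ ⟨l, hl, rfl⟩ _ ⟨l', hl', rfl⟩ k hk⟩

theorem Eqv.refl (K : ℕ) (s : ι → Elt) : Eqv K s s :=
  ⟨fun _ => Iff.rfl, fun _ _ _ _ _ _ => Iff.rfl⟩

theorem Eqv.symm (h : Eqv K s t) : Eqv K t s :=
  ⟨fun l => (h.1 l).symm, fun l l' hl hl' k hk =>
    (h.2 l l' ((h.1 l).2 hl) ((h.1 l').2 hl') k hk).symm⟩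

theorem Eqv.trans (h : Eqv K s t) (h' : Eqv K t r) : Eqv K s r :=
  ⟨fun l => (h.1 l).trans (h'.1 l), fun l l' hl hl' k hk =>
    (h.2 l l' hl hl' k hk).trans (h'.2 l l' ((h.1 l).1 hl) ((h.1 l').1 hl') k hk)⟩

theorem Eqv.mono {K' : ℕ} (h : Eqv K s t) (hK : K' ≤ K) : Eqv K' s t :=
  ⟨h.1, fun l l' hl hl' k hk => h.2 l l' hl hl' k (hk.trans hK)⟩

theorem Eqv.comp (h : Eqv K s t) (σ : ι' → ι) :
    Eqv K (fun i => s (σ i)) (fun i => t (σ i)) := by
  have e : ∀ (q : ι → Elt) (l : List ι'), l.map (fun i => q (σ i)) = (l.map σ).map q := by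
    intro q l; simp
  refine ⟨fun l => ?_, fun l l' hl hl' k hk => ?_⟩
  · rw [e, e]; exact h.1 _
  · rw [e] at hl hl'
    rw [e, e, e, e]
    exact h.2 _ _ hl hl' k hk

theorem Eqv.reindex {s' t' : ι' → Elt} (h : Eqv K s t)
    (hσ : ∀ i', ∃ i, s i = s' i' ∧ t i = t' i') : Eqv K s' t' := by
  choose σ hσ using hσ
  have h1 : s' = fun i => s (σ i) := by funext i; exact (hσ i).1.symm
  have h2 : t' = fun i => t (σ i) := by funext i; exact (hσ i).2.symm
  rw [h1, h2]
  exact h.comp σ

theorem Eqv.lev_eq_iff (h : Eqv K s t) (i j : ι) :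
    (s i).lev = (s j).lev ↔ (t i).lev = (t j).lev := by
  have h1 := h.2 [i, i] [j, j] (by simp) (by simp) 0 (Nat.zero_le _)
  have h2 := h.2 [j, j] [i, i] (by simp) (by simp) 0 (Nat.zero_le _)
  simp only [List.map_cons, List.map_nil, val_pair, add_zero] at h1 h2
  omega

theorem Eqv.eq_iff (h : Eqv K s t) (i j : ι) : s i = s j ↔ t i = t j := by
  have key : ∀ x y : Elt, x = y ↔ (Alw [x, y] ∧ val [x, x] + 0 ≤ val [x, y]) := by
    intro x y
    constructor
    · rintro rfl
      simp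
    · rintro ⟨h1, h2⟩
      rw [val_pair, add_zero] at h2
      have hlev : y.lev = x.lev := by
        obtain ⟨z, hz, hzx⟩ := h1.exists_lev
        simp at hz
        rw [← hz, hzx]
      have hsrt : x.srt = y.srt := by
        have := h1.2
        simp at this
        exact this
      refine Elt.ext hsrt hlev.symm ?_
      funext n
      rcases lt_or_ge n x.lev with hn | hn
      · have := xr_of_lt_val (lt_of_lt_of_le hn h2)
        simpa using this
      · rw [x.bit_ge n hn, y.bit_ge n (hlev ▸ hn)]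
  have e1 := h.1 [i, j]
  simp only [List.map_cons, List.map_nil] at e1
  rw [key, key]
  constructor
  · rintro ⟨a, b⟩
    refine ⟨e1.1 a, ?_⟩
    have := h.2 [i, i] [i, j] (by simp) (by simpa using a) 0 (Nat.zero_le _)
    simp only [List.map_cons, List.map_nil] at this
    exact this.1 b
  · rintro ⟨a, b⟩
    refine ⟨e1.2 a, ?_⟩
    have := h.2 [i, i] [i, j] (by simp) (by simpa using e1.2 a) 0 (Nat.zero_le _)
    simp only [List.map_cons, List.map_nil] at this
    exact this.2 b

/-- Extending a tuple by one element. -/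
def ext (s : ι → Elt) (x : Elt) : Option ι → Elt := fun o => o.elim x s

@[simp] theorem ext_none (s : ι → Elt) (x : Elt) : ext s x none = x := rfl
@[simp] theorem ext_some (s : ι → Elt) (x : Elt) (i : ι) : ext s x (some i) = s i := rfl

/-- Normal form of lists over `Option ι`. -/
theorem exists_norm (L : List (Option ι)) : ∃ l : List ι,
    SameL L (l.map some) ∨ SameL L (none :: none :: l.map some) ∨
      SameL L (none :: l.map some) := by
  induction L with
  | nil => exact ⟨[], Or.inl (SameL.refl _)⟩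
  | cons o L ih =>
    obtain ⟨l, h | h | h⟩ := ih
    · cases o with
      | none => exact ⟨l, Or.inr (Or.inr (h.cons none))⟩
      | some i => exact ⟨i :: l, Or.inl (h.cons (some i))⟩
    · cases o with
      | none =>
        refine ⟨l, Or.inr (Or.inr ((h.cons none).trans ⟨fun a => ?_, fun f => ?_⟩))⟩
        · simp
        · simp
      | some i =>
        refine ⟨i :: l, Or.inr (Or.inl ((h.cons (some i)).trans (SameL.of_perm ?_)))⟩
        exact (List.perm_middle (l₁ := [none, none]) (l₂ := l.map some)).symm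
    · cases o with
      | none => exact ⟨l, Or.inr (Or.inl (h.cons none))⟩
      | some i =>
        refine ⟨i :: l, Or.inr (Or.inr ((h.cons (some i)).trans (SameL.of_perm ?_)))⟩
        exact (List.perm_middle (l₁ := [none]) (l₂ := l.map some)).symm

theorem alw_cons_cons_self (x : Elt) (z : List Elt) : Alw (x :: x :: z) ↔ Alw z := by
  simp [Alw]

theorem val_cons_cons_self (x : Elt) {z : List Elt} (hz : z ≠ []) :
    val (x :: x :: z) = min x.lev (val z) := by
  apply eq_of_forall_le_iff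
  intro n
  rw [le_min_iff, le_val_iff (by simp), le_val_iff hz]
  simp only [List.mem_cons, forall_eq_or_imp, xr_cons, ← Bool.xor_assoc, Bool.xor_self,
    Bool.false_xor]
  tauto

theorem final {x y : Elt} {P : Set (ℕ × ℕ)} (hP : OrdEq K P)
    (h0 : ∀ l : List ι, Alw (l.map s) ↔ Alw (l.map t))
    (ha : ∀ l : List ι, Alw (x :: l.map s) ↔ Alw (y :: l.map t))
    (h1 : ∀ l : List ι, Alw (l.map s) → (val (l.map s), val (l.map t)) ∈ P)
    (h2 : (x.lev, y.lev) ∈ P)
    (h3 : ∀ l : List ι, Alw (x :: l.map s) → ∃ u ∈ P, ∃ v ∈ P,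
      val (x :: l.map s) = min u.1 v.1 ∧ val (y :: l.map t) = min u.2 v.2) :
    Eqv K (ext s x) (ext t y) := by
  have key : ∀ L : List (Option ι), (Alw (L.map (ext s x)) ↔ Alw (L.map (ext t y))) ∧
      (Alw (L.map (ext s x)) → ∃ u ∈ P, ∃ v ∈ P,
        val (L.map (ext s x)) = min u.1 v.1 ∧ val (L.map (ext t y)) = min u.2 v.2) := by
    intro L
    have hm : ∀ (q : ι → Elt) (z : Elt) (l : List ι), (l.map some).map (ext q z) = l.map q := by
      intro q z l
      simp [Function.comp_def]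
    obtain ⟨l, h | h | h⟩ := exists_norm L
    · rw [(h.map (ext s x)).alw, (h.map (ext t y)).alw, (h.map (ext s x)).val,
        (h.map (ext t y)).val, hm, hm]
      refine ⟨h0 l, fun hl => ⟨_, h1 l hl, _, h1 l hl, by simp⟩⟩
    · rw [(h.map (ext s x)).alw, (h.map (ext t y)).alw, (h.map (ext s x)).val,
        (h.map (ext t y)).val]
      simp only [List.map_cons, hm, ext_none, alw_cons_cons_self]
      refine ⟨h0 l, fun hl => ?_⟩
      rcases l with _ | ⟨i, l⟩
      · exact ⟨_, h2, _, h2, by simp⟩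
      · refine ⟨_, h2, _, h1 (i :: l) hl, ?_, ?_⟩
        · exact val_cons_cons_self x (by simp)
        · exact val_cons_cons_self y (by simp)
    · rw [(h.map (ext s x)).alw, (h.map (ext t y)).alw, (h.map (ext s x)).val,
        (h.map (ext t y)).val]
      simp only [List.map_cons, hm, ext_none]
      exact ⟨ha l, h3 l⟩
  refine ⟨fun L => (key L).1, fun L L' hL hL' k hk => ?_⟩
  obtain ⟨u, hu, v, hv, e1, e2⟩ := (key L).2 hL
  obtain ⟨u', hu', v', hv', e1', e2'⟩ := (key L').2 hL'
  rw [e1, e2, e1', e2']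
  have a1 := hP u hu u' hu' k hk
  have a2 := hP u hu v' hv' k hk
  have a3 := hP v hv u' hu' k hk
  have a4 := hP v hv v' hv' k hk
  simp only [le_min_iff] at *
  omega

theorem exists_elt {z : List Elt} (hz : z ≠ []) (σ : Bool) {lam β : ℕ}
    (hlam : val (z ++ z) ≤ lam) (hβ : β ≤ val (z ++ z)) :
    ∃ y : Elt, y.lev = lam ∧ y.srt = σ ∧ val (y :: z) = β := by
  classical
  let b : ℕ → Bool := fun n =>
    if n < β then xr (fun x : Elt => x.bit n) z
    else if n = β ∧ β < val (z ++ z) then !(xr (fun x : Elt => x.bit n) z) else false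
  refine ⟨⟨σ, lam, b, fun n hn => ?_⟩, rfl, rfl, ?_⟩
  · have h1 : ¬ n < β := by omega
    have h2 : ¬ (n = β ∧ β < val (z ++ z)) := by omega
    simp only [b, h1, h2, if_false]
  · have hlev : ∀ y ∈ z, β ≤ y.lev := (le_val_double hz).1 hβ
    apply le_antisymm
    · by_contra hcon
      push Not at hcon
      have h1 : β + 1 ≤ val (z ++ z) := by
        rw [le_val_double hz]
        intro y hy
        exact lt_of_lt_of_le hcon (val_le_lev (by simp [hy]))
      have h2 := xr_of_lt_val hcon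
      simp only [xr_cons] at h2
      have h3 : b β = !(xr (fun x : Elt => x.bit β) z) := by
        change (if β < β then xr (fun x : Elt => x.bit β) z
          else if β = β ∧ β < val (z ++ z) then !(xr (fun x : Elt => x.bit β) z) else false) = _
        rw [if_neg (lt_irrefl _), if_pos ⟨rfl, h1⟩]
      rw [h3] at h2
      revert h2
      cases xr (fun x : Elt => x.bit β) z <;> simp
    · rw [le_val_iff (by simp)]
      refine ⟨fun y hy => ?_, fun m hm => ?_⟩
      · rcases List.mem_cons.1 hy with rfl | hy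
        · exact hβ.trans hlam
        · exact hlev y hy
      · simp only [xr_cons]
        have h3 : b m = xr (fun x : Elt => x.bit m) z := by
          simp only [b, hm, if_true]
        rw [h3]
        simp

theorem Eqv.lev_parity (h : Eqv K s t) (l : List ι) :
    (∀ d, xr (fun x : Elt => decide (x.lev = d)) (l.map s) = false) ↔
      (∀ d, xr (fun x : Elt => decide (x.lev = d)) (l.map t) = false) := by
  have aux : ∀ {s t : ι → Elt}, (∀ i j, (s i).lev = (s j).lev ↔ (t i).lev = (t j).lev) →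
      (∀ d, xr (fun x : Elt => decide (x.lev = d)) (l.map s) = false) →
      (∀ d, xr (fun x : Elt => decide (x.lev = d)) (l.map t) = false) := by
    intro s t h hs d
    by_cases hd : ∃ j ∈ l, (t j).lev = d
    · obtain ⟨j, hj, rfl⟩ := hd
      rw [← hs (s j).lev, xr_map, xr_map]
      apply xr_congr
      intro i _
      simp only [h i j]
    · push Not at hd
      rw [xr_map]
      have h2 : xr (fun i => decide ((t i).lev = d)) l = xr (fun _ => false) l :=
        xr_congr fun a ha => by simpa using hd a ha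
      have h3 : ∀ z : List ι, xr (fun _ => false) z = false := by
        intro z
        induction z with
        | nil => rfl
        | cons a l ih => simp [ih]
      rw [h2, h3]
  exact ⟨aux h.lev_eq_iff, aux fun i j => (h.lev_eq_iff i j).symm⟩

/-- If `x` is at the level of `s j`, and `y` is at the level of `t j` with matching sort, then
the allowed lists agree. -/
theorem Eqv.alw_cons (h : Eqv K s t) {x y : Elt} {j : ι} (hx : (s j).lev = x.lev)
    (hy : (t j).lev = y.lev) (hs : y.srt = xor (t j).srt (xor (s j).srt x.srt)) (l : List ι) :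
    Alw (x :: l.map s) ↔ Alw (y :: l.map t) := by
  have e1 : (∀ d, xr (fun x : Elt => decide (x.lev = d)) (x :: l.map s) = false) ↔
      (∀ d, xr (fun x : Elt => decide (x.lev = d)) (y :: l.map t) = false) := by
    have := h.lev_parity (j :: l)
    simp only [List.map_cons, xr_cons] at this ⊢
    rw [← hx, ← hy]
    exact this
  have e2 := h.1 (j :: l)
  have e3 := h.lev_parity (j :: l)
  unfold Alw at e2 ⊢
  constructor
  · rintro ⟨a1, a2⟩
    refine ⟨e1.1 a1, ?_⟩
    have b1 : ∀ d, xr (fun x : Elt => decide (x.lev = d)) ((j :: l).map s) = false := by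
      simpa only [List.map_cons, xr_cons, hx] using a1
    have b2 := e3.1 b1
    simp only [b1, b2, true_and, implies_true] at e2
    simp only [List.map_cons, xr_cons] at e2 a2 ⊢
    rw [hs]
    revert e2 a2
    cases (s j).srt <;> cases (t j).srt <;> cases x.srt <;> cases xr Elt.srt (l.map s) <;>
      cases xr Elt.srt (l.map t) <;> simp
  · rintro ⟨a1, a2⟩
    refine ⟨e1.2 a1, ?_⟩
    have b2 : ∀ d, xr (fun x : Elt => decide (x.lev = d)) ((j :: l).map t) = false := by
      simpa only [List.map_cons, xr_cons, hy] using a1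
    have b1 := e3.2 b2
    simp only [b1, b2, true_and, implies_true] at e2
    simp only [List.map_cons, xr_cons] at e2 a2 ⊢
    rw [hs] at a2
    revert e2 a2
    cases (s j).srt <;> cases (t j).srt <;> cases x.srt <;> cases xr Elt.srt (l.map s) <;>
      cases xr Elt.srt (l.map t) <;> simp

/-- **Extension property.** -/
theorem Eqv.extend (h : Eqv (2 * K + 2) s t) (x : Elt) :
    ∃ y, Eqv K (ext s x) (ext t y) := by
  have hO := h.ordEq
  have hO' : OrdEq K (pts s t) := hO.mono (by omega) subset_rfl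
  have hlevpt : ∀ j, ((s j).lev, (t j).lev) ∈ pts s t := fun j => ⟨[j, j], by simp, by simp⟩
  by_cases hlev : ∃ j, (s j).lev = x.lev
  · obtain ⟨j, hj⟩ := hlev
    by_cases hW : ∃ l : List ι, Alw (x :: l.map s)
    · obtain ⟨w, ⟨l₀, rfl, hw⟩, hbest⟩ :=
        exists_best (x := x) (Z := {z | ∃ l : List ι, l.map s = z ∧ Alw (x :: z)})
          (by obtain ⟨l, hl⟩ := hW; exact ⟨_, l, rfl, hl⟩) (fun z hz => by
            obtain ⟨_, _, hz⟩ := hz; exact hz)
      obtain ⟨β', hβ'⟩ := hO.exists_cut (zero_mem_pts s t) (val (x :: l₀.map s))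
      have hl₀ : l₀ ≠ [] := by
        rintro rfl
        exact hw.not_nil rfl
      have hne : l₀.map t ≠ [] := by simp [hl₀]
      have hnes : l₀.map s ≠ [] := by simp [hl₀]
      have hdd : ∀ l : List ι,
          (val (l.map s ++ l.map s), val (l.map t ++ l.map t)) ∈ pts s t := by
        intro l
        exact ⟨l ++ l, by simpa using alw_double (l.map s), by simp⟩
      have hmemβ : (val (x :: l₀.map s), β') ∈ insert (val (x :: l₀.map s), β') (pts s t) :=
        Set.mem_insert _ _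
      have hβle : β' ≤ val (l₀.map t ++ l₀.map t) := by
        have h1 := hβ' _ hmemβ _ (Set.mem_insert_of_mem _ (hdd l₀)) 0 (Nat.zero_le _)
        simp only [add_zero] at h1
        apply h1.1
        rw [le_val_double hnes]
        intro y hy
        exact val_le_lev (by simp [hy])
      have hlamle : val (l₀.map t ++ l₀.map t) ≤ (t j).lev := by
        have h1 := hβ' _ (Set.mem_insert_of_mem _ (hdd l₀)) _
          (Set.mem_insert_of_mem _ (hlevpt j)) 0 (Nat.zero_le _)
        simp only [add_zero] at h1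
        apply h1.1
        obtain ⟨y, hy, hyx⟩ := hw.exists_lev
        rw [hj, ← hyx]
        exact val_le_lev (by simp [hy])
      obtain ⟨y, hy1, hy2, hy3⟩ := exists_elt hne (xor (t j).srt (xor (s j).srt x.srt))
        hlamle hβle
      refine ⟨y, final hβ' h.1 (h.alw_cons hj hy1.symm hy2)
        (fun l hl => Set.mem_insert_of_mem _ ⟨l, hl, rfl⟩)
        (by rw [← hj, hy1]; exact Set.mem_insert_of_mem _ (hlevpt j)) (fun l hl => ?_)⟩
      have hlt := (h.alw_cons hj hy1.symm hy2 l).1 hl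
      have hQmem : (val (l.map s ++ l₀.map s), val (l.map t ++ l₀.map t)) ∈ pts s t :=
        ⟨l ++ l₀, by simpa using hl.cons_cons hw, by simp⟩
      refine ⟨_, hmemβ, _, Set.mem_insert_of_mem _ hQmem, ?_, ?_⟩
      · exact val_cons_eq hl (hbest _ ⟨l, rfl, hl⟩)
      · have := val_cons_eq (w := l₀.map t) hlt (fun hQ => ?_)
        · rw [this, hy3]
        · rw [hy3] at hQ ⊢
          have c1 := hβ' _ hmemβ _ (Set.mem_insert_of_mem _ hQmem) 0 (Nat.zero_le _)
          have c2 := hβ' _ (Set.mem_insert_of_mem _ hQmem) _ hmemβ 0 (Nat.zero_le _)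
          have c3 := hβ' _ (Set.mem_insert_of_mem _ (hdd l)) _ hmemβ 0 (Nat.zero_le _)
          simp only [add_zero] at c1 c2 c3
          apply c3.1
          apply hbest _ ⟨l, rfl, hl⟩
          omega
    · refine ⟨⟨xor (t j).srt (xor (s j).srt x.srt), (t j).lev, fun _ => false, by simp⟩,
        final hO' h.1 (h.alw_cons hj rfl rfl) (fun l hl => ⟨l, hl, rfl⟩)
        (by rw [← hj]; exact hlevpt j) (fun l hl => absurd ⟨l, hl⟩ hW)⟩
  · obtain ⟨β', hβ'⟩ := hO.exists_cut (zero_mem_pts s t) x.lev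
    have hs : ∀ l : List ι, ¬ Alw (x :: l.map s) := by
      intro l hl
      obtain ⟨y, hy, hyx⟩ := hl.exists_lev
      obtain ⟨j, _, rfl⟩ := List.mem_map.1 hy
      exact hlev ⟨j, hyx⟩
    have ht : ∀ l : List ι, ¬ Alw ((⟨false, β', fun _ => false, by simp⟩ : Elt) :: l.map t) := by
      intro l hl
      obtain ⟨y, hy, hyx⟩ := hl.exists_lev
      obtain ⟨j, _, rfl⟩ := List.mem_map.1 hy
      simp only at hyx
      have c1 := hβ' _ (Set.mem_insert _ _) _ (Set.mem_insert_of_mem _ (hlevpt j)) 0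
        (Nat.zero_le _)
      have c2 := hβ' _ (Set.mem_insert_of_mem _ (hlevpt j)) _ (Set.mem_insert _ _) 0
        (Nat.zero_le _)
      simp only [add_zero] at c1 c2
      apply hlev ⟨j, _⟩
      omega
    refine ⟨⟨false, β', fun _ => false, by simp⟩, final hβ' h.1 (fun l => ?_)
      (fun l hl => Set.mem_insert_of_mem _ ⟨l, hl, rfl⟩) (Set.mem_insert _ _)
      (fun l hl => absurd hl (hs l))⟩
    exact iff_of_false (hs l) (ht l)

end

end Pool.Agent.DpTree
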