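import Pool.Agent.DpTree.DpMin

/-!
# The family without a definable type
-/

open FirstOrder FirstOrder.Language

namespace Pool.Agent.DpTree

/-- The zero element of level `n` and sort `c`. -/
def zeroElt (c : Bool) (n : ℕ) : Elt := ⟨c, n, fun _ => false, by simp⟩

instance : Nonempty Elt := ⟨zeroElt false 0⟩

instance : Infinite Elt :=
  Infinite.of_injective (fun n => zeroElt false n) fun _ _ h => congrArg Elt.lev h

theorem xr_xor {α : Type} (f g : α → Bool) (l : List α) :
    xr (fun a => xor (f a) (g a)) l = xor (xr f l) (xr g l) := by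
  induction l with
  | nil => rfl
  | cons a l ih =>
    simp only [xr_cons, ih]
    cases f a <;> cases g a <;> cases xr f l <;> cases xr g l <;> rfl

/-- The automorphism flipping the bit `D` of all elements of sort `true` and level above `D`. -/
def flip (D : ℕ) (x : Elt) : Elt where
  srt := x.srt
  lev := x.lev
  bit := fun n => if n = D ∧ D < x.lev then xor (x.bit n) x.srt else x.bit n
  bit_ge := fun n hn => by
    have h : ¬ (n = D ∧ D < x.lev) := by omega
    simp only [h, if_false]
    exact x.bit_ge n hn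

@[simp] theorem flip_lev (D : ℕ) (x : Elt) : (flip D x).lev = x.lev := rfl
@[simp] theorem flip_srt (D : ℕ) (x : Elt) : (flip D x).srt = x.srt := rfl

theorem flip_of_srt {D : ℕ} {x : Elt} (h : x.srt = false) : flip D x = x := by
  refine Elt.ext rfl rfl ?_
  funext n
  simp [flip, h]

theorem flip_of_lev {D : ℕ} {x : Elt} (h : x.lev ≤ D) : flip D x = x := by
  refine Elt.ext rfl rfl ?_
  funext n
  have h : ¬ (n = D ∧ D < x.lev) := by omega
  simp only [flip, h, if_false]

theorem flip_alw (D : ℕ) (l : List Elt) : Alw (l.map (flip D)) ↔ Alw l := by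
  unfold Alw
  simp only [xr_map, flip_lev, flip_srt]
  exact Iff.rfl

theorem flip_parity {D m n : ℕ} {l : List Elt} (hl : Alw l) (hlev : ∀ x ∈ l, n ≤ x.lev)
    (hm : m < n) : xr (fun x : Elt => x.bit m) (l.map (flip D)) =
      xr (fun x : Elt => x.bit m) l := by
  rw [xr_map]
  by_cases h : m = D
  · subst h
    have e1 : xr (fun x : Elt => (flip m x).bit m) l =
        xr (fun x : Elt => xor (x.bit m) x.srt) l := by
      apply xr_congr
      intro x hx
      have : m < x.lev := lt_of_lt_of_le hm (hlev x hx)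
      simp [flip, this]
    have e2 : xr (fun x : Elt => x.srt) l = false := hl.2
    rw [e1, xr_xor, e2, Bool.xor_false]
  · apply xr_congr
    intro x _
    simp [flip, h]

theorem flip_val {D : ℕ} {l : List Elt} (hl : Alw l) : val (l.map (flip D)) = val l := by
  rcases l with _ | ⟨a, l⟩
  · simp
  · apply eq_of_forall_le_iff
    intro n
    rw [le_val_iff (by simp), le_val_iff (by simp)]
    constructor
    · rintro ⟨h1, h2⟩
      have h3 : ∀ x ∈ a :: l, n ≤ x.lev := fun x hx => h1 (flip D x) (List.mem_map_of_mem hx)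
      exact ⟨h3, fun m hm => by rw [← flip_parity (D := D) hl h3 hm]; exact h2 m hm⟩
    · rintro ⟨h1, h2⟩
      refine ⟨fun y hy => ?_, fun m hm => by rw [flip_parity (D := D) hl h1 hm]; exact h2 m hm⟩
      obtain ⟨x, hx, rfl⟩ := List.mem_map.1 hy
      exact h1 x hx

theorem eqv_flip {ι : Type} (K D : ℕ) (s : ι → Elt) : Eqv K s (fun i => flip D (s i)) := by
  have e : ∀ l : List ι, l.map (fun i => flip D (s i)) = (l.map s).map (flip D) := by
    intro l; simp
  refine ⟨fun l => ?_, fun l l' hl hl' k _ => ?_⟩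
  · rw [e, flip_alw]
  · rw [e, e, flip_val hl, flip_val hl']

/-- definable sets are invariant under flips of large bits -/
theorem definable_flip {k : ℕ} {S : Set (Fin k → Elt)}
    (hS : (Set.univ : Set Elt).Definable Ltree S) :
    ∃ D : ℕ, ∀ v ∈ S, (fun i => flip D (v i)) ∈ S := by
  rw [Set.definable_iff_finitely_definable] at hS
  obtain ⟨A, _, hA⟩ := hS
  rw [Set.definable_iff_exists_formula_sum] at hA
  obtain ⟨φ, hφ⟩ := hA
  obtain ⟨K, hK⟩ := realize_invariant' φ
  refine ⟨A.sup Elt.lev, fun v hv => ?_⟩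
  rw [hφ] at hv ⊢
  simp only [Set.mem_ofPred_eq] at hv ⊢
  have h1 := eqv_flip K (A.sup Elt.lev)
    (Sum.elim (fun a : (A : Set Elt) => (a : Elt)) v)
  have h2 : (fun i => flip (A.sup Elt.lev) (Sum.elim (fun a : (A : Set Elt) => (a : Elt)) v i)) =
      Sum.elim (fun a : (A : Set Elt) => (a : Elt))
        (fun i => flip (A.sup Elt.lev) (v i)) := by
    funext i
    rcases i with ⟨a, ha⟩ | i
    · exact flip_of_lev (Finset.le_sup (f := Elt.lev) (by simpa using ha))
    · rfl
  rw [h2] at h1
  exact (hK _ _ h1).1 hv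

/-- The family. -/
def famSet : Set (Fin 1 ⊕ Fin 2 → Elt) :=
  {v | (v (Sum.inl 0)).lev ≤ (v (Sum.inr 0)).lev ∧ (v (Sum.inr 0)).lev = (v (Sum.inr 1)).lev ∧
    (v (Sum.inr 0)).srt ≠ (v (Sum.inr 1)).srt}

theorem famSet_definable : (Set.univ : Set Elt).Definable Ltree famSet := by
  refine Set.Definable.mono (A := ∅) ?_ (Set.empty_subset _)
  rw [Set.empty_definable_iff]
  refine ⟨atm [Sum.inl 0, Sum.inl 0] [Sum.inr 0, Sum.inr 0] 0 ⊓
    (atm [Sum.inr 0, Sum.inr 0] [Sum.inr 1, Sum.inr 1] 0 ⊓
      (atm [Sum.inr 1, Sum.inr 1] [Sum.inr 0, Sum.inr 0] 0 ⊓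
        (atm [] [Sum.inr 0, Sum.inr 1] 0).not)), ?_⟩
  ext v
  simp only [famSet, Set.mem_ofPred_eq, Formula.realize_inf, Formula.realize_not, realize_atm,
    Rel, List.map_cons, List.map_nil, alw_pair, val_pair, alw_nil, val_nil, true_and, add_zero,
    zero_le, and_true]
  constructor
  · rintro ⟨h1, h2, h3⟩
    refine ⟨h1, h2.le, h2.ge, ?_⟩
    rwa [alw_two_iff h2]
  · rintro ⟨h1, h2, h3, h4⟩
    have h5 := le_antisymm h2 h3
    rw [alw_two_iff h5] at h4
    exact ⟨h1, h5, h4⟩

/-- membership in a complete type of a piece of a finite cover -/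
theorem IsCompleteType.exists_mem {L : FirstOrder.Language.{0, 0}} {M : Type} [L.Structure M]
    {n : ℕ} {p : Set (Set (Fin n → M))} (hp : IsCompleteType L p) {ι : Type} [Finite ι]
    {A : ι → Set (Fin n → M)} (hA : ∀ i, (Set.univ : Set M).Definable L (A i))
    {B : Set (Fin n → M)} (hB : B ∈ p) (hBA : B ⊆ ⋃ i, A i) : ∃ i, A i ∈ p := by
  classical
  have := Fintype.ofFinite ι
  by_contra hcon
  push Not at hcon
  have hc : ∀ i, (A i)ᶜ ∈ p := fun i => (hp.mem_or_compl_mem _ (hA i)).resolve_left (hcon i)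
  have key : ∀ F : Finset ι, (B ∩ ⋂ i ∈ F, (A i)ᶜ) ∈ p := by
    intro F
    induction F using Finset.induction_on with
    | empty => simpa using hB
    | insert a F _ ih =>
      have := hp.inter_mem _ (hc a) _ ih
      rw [Finset.set_biInter_insert]
      rwa [Set.inter_left_comm] at this
  have h := key Finset.univ
  have h0 : (B ∩ ⋂ i ∈ (Finset.univ : Finset ι), (A i)ᶜ) = ∅ := by
    rw [Set.eq_empty_iff_forall_notMem]
    rintro x ⟨hx1, hx2⟩
    obtain ⟨i, hi⟩ := Set.mem_iUnion.1 (hBA hx1)
    simp only [Finset.mem_univ, Set.iInter_true, Set.mem_iInter] at hx2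
    exact hx2 i hi
  rw [h0] at h
  exact hp.empty_notMem h

/-- sections of formulas are definable -/
theorem section_definable {L : FirstOrder.Language.{0, 0}} {M : Type} [L.Structure M]
    {n k : ℕ} (φ : L.Formula (Fin n ⊕ Fin k)) (b : Fin k → M) :
    (Set.univ : Set M).Definable L {x : Fin n → M | φ.Realize (Sum.elim x b)} := by
  rw [Set.definable_iff_exists_formula_sum]
  refine ⟨φ.relabel (Sum.elim (fun i => Sum.inr i) (fun j => Sum.inl ⟨b j, trivial⟩)), ?_⟩
  ext x
  simp only [Set.mem_ofPred_eq, Formula.realize_relabel]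
  apply iff_of_eq
  congr 1
  funext i
  cases i <;> rfl

theorem hasBadFamily : HasBadFamily Ltree Elt := by
  classical
  refine ⟨1, 2, Set.univ, famSet, Set.definable_univ, famSet_definable, Set.univ_nonempty,
    ?_, ?_, ?_⟩
  · intro b _
    refine ⟨![⟨false, (b 0).lev, fun _ => false, by simp⟩,
      ⟨true, (b 0).lev, fun _ => false, by simp⟩], ?_⟩
    simp [fib, famSet]
  · intro b _ b' _
    refine ⟨fun _ => ⟨false, max (b 0).lev (b' 0).lev, fun _ => false, by simp⟩,
      Set.mem_univ _, ?_⟩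
    rintro x ⟨h1, h2, h3⟩
    simp only [Sum.elim_inl, Sum.elim_inr] at h1 h2 h3
    exact ⟨⟨(le_max_left _ _).trans h1, h2, h3⟩, ⟨(le_max_right _ _).trans h1, h2, h3⟩⟩
  · intro p hp hdef hall
    -- the formula
    let ψ : Ltree.Formula (Fin 2 ⊕ Fin 2) :=
      atm [Sum.inr 0, Sum.inr 0] [Sum.inl 0, Sum.inl 1, Sum.inr 0, Sum.inr 1] 0
    have hψ : ∀ x b : Fin 2 → Elt, ψ.Realize (Sum.elim x b) ↔
        Alw [x 0, x 1, b 0, b 1] ∧ (b 0).lev ≤ val [x 0, x 1, b 0, b 1] := by
      intro x b
      simp only [ψ, realize_atm, Rel, List.map_cons, List.map_nil, Sum.elim_inl, Sum.elim_inr,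
        alw_pair, val_pair, true_and, add_zero]
    obtain ⟨D, hD⟩ := definable_flip (hdef 2 ψ)
    let z : Elt := ⟨false, D + 1, fun _ => false, by simp⟩
    let w : (Fin (D + 1) → Bool) → Elt := fun τ =>
      ⟨true, D + 1, fun n => if h : n < D + 1 then τ ⟨n, h⟩ else false, fun n hn => by
        simp [show ¬ n < D + 1 by omega]⟩
    have hcover : fib famSet (fun _ => z) ⊆
        ⋃ τ : Fin (D + 1) → Bool, {x : Fin 2 → Elt | ψ.Realize (Sum.elim x ![z, w τ])} := by
      rintro x ⟨h1, h2, h3⟩
      simp only [Sum.elim_inl, Sum.elim_inr] at h1 h2 h3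
      refine Set.mem_iUnion.2 ⟨fun n => xor ((x 0).bit n) ((x 1).bit n), ?_⟩
      simp only [Set.mem_ofPred_eq]
      rw [hψ]
      simp only [Matrix.cons_val_zero, Matrix.cons_val_one]
      constructor
      · refine ⟨fun d => ?_, ?_⟩
        · simp [z, w, h2]
        · have h4 : (x 0).srt = !(x 1).srt := by
            revert h3
            cases (x 0).srt <;> cases (x 1).srt <;> simp
          simp [z, w, h4]
      · rw [le_val_iff (by simp)]
        refine ⟨fun y hy => ?_, fun m hm => ?_⟩
        · simp only [List.mem_cons, List.not_mem_nil, or_false] at hy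
          rcases hy with rfl | rfl | rfl | rfl
          · exact h1
          · exact h2 ▸ h1
          · exact le_rfl
          · exact le_rfl
        · have hm' : m < D + 1 := hm
          simp only [xr_cons, xr_nil, z, w, hm', dif_pos]
          cases (x 0).bit m <;> cases (x 1).bit m <;> rfl
    obtain ⟨τ, hτ⟩ := hp.exists_mem
      (A := fun τ : Fin (D + 1) → Bool => {x : Fin 2 → Elt | ψ.Realize (Sum.elim x ![z, w τ])})
      (fun τ => section_definable ψ _) (hall (fun _ => z) (Set.mem_univ _)) hcover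
    have hτ' := hD ![z, w τ] hτ
    have hinter := hp.inter_mem _ hτ _ hτ'
    have hempty : ({x : Fin 2 → Elt | ψ.Realize (Sum.elim x ![z, w τ])} ∩
        {x : Fin 2 → Elt | ψ.Realize (Sum.elim x (fun i => flip D (![z, w τ] i)))}) = ∅ := by
      rw [Set.eq_empty_iff_forall_notMem]
      rintro x ⟨hx1, hx2⟩
      simp only [Set.mem_ofPred_eq] at hx1 hx2
      rw [hψ] at hx1 hx2
      have e1 := xr_of_lt_val (lt_of_lt_of_le (Nat.lt_succ_self D) hx1.2)
      have e2 := xr_of_lt_val (lt_of_lt_of_le (Nat.lt_succ_self D) hx2.2)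
      simp only [Matrix.cons_val_zero, Matrix.cons_val_one, xr_cons, xr_nil] at e1 e2
      have f1 : (flip D z).bit D = false := by simp [flip, z]
      have f2 : (flip D (w τ)).bit D = !((w τ).bit D) := by simp [flip, w]
      have f3 : z.bit D = false := rfl
      rw [f1, f2] at e2
      rw [f3] at e1
      revert e1 e2
      cases (x 0).bit D <;> cases (x 1).bit D <;> cases (w τ).bit D <;> simp
    rw [hempty] at hinter
    exact hp.empty_notMem hinter

end Pool.Agent.DpTree
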