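import Pool.Agent.DpTree.Ext

/-!
# Strong honest definitions with boundedly many parameters
-/

namespace Pool.Agent.DpTree

universe u v w

/-- `Eqv` of two tuples over a common set of parameters. -/
def Over {ι : Type u} (K : ℕ) (S : Set Elt) (x x' : ι → Elt) : Prop :=
  Eqv K (Sum.elim (Subtype.val : S → Elt) x) (Sum.elim (Subtype.val : S → Elt) x')

section

variable {ι : Type u} {ι' : Type v} {K : ℕ} {S T : Set Elt} {x x' x'' : ι → Elt}

theorem Over.symm (h : Over K S x x') : Over K S x' x := Eqv.symm h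

theorem Over.trans (h : Over K S x x') (h' : Over K S x' x'') : Over K S x x'' :=
  Eqv.trans h h'

theorem Over.mono {K' : ℕ} (h : Over K S x x') (hK : K' ≤ K) (hT : T ⊆ S) :
    Over K' T x x' := by
  refine (Eqv.mono h hK).reindex ?_
  rintro (⟨a, ha⟩ | i)
  · exact ⟨Sum.inl ⟨a, hT ha⟩, rfl, rfl⟩
  · exact ⟨Sum.inr i, rfl, rfl⟩

theorem Over.reindex {y y' : ι' → Elt} (h : Over K S x x')
    (hσ : ∀ i', ∃ i, x i = y i' ∧ x' i = y' i') : Over K S y y' := by
  refine Eqv.reindex h ?_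
  rintro (⟨a, ha⟩ | i)
  · exact ⟨Sum.inl ⟨a, ha⟩, rfl, rfl⟩
  · obtain ⟨j, hj⟩ := hσ i
    exact ⟨Sum.inr j, hj⟩

/-- moving common elements of the tuple into the parameters -/
theorem Over.to_params {y y' : ι' → Elt} (h : Over K S x x')
    (hT : ∀ a ∈ T, a ∈ S ∨ ∃ i, x i = a ∧ x' i = a)
    (hσ : ∀ i', ∃ i, x i = y i' ∧ x' i = y' i') : Over K T y y' := by
  refine Eqv.reindex h ?_
  rintro (⟨a, ha⟩ | i)
  · rcases hT a ha with h | ⟨i, h1, h2⟩
    · exact ⟨Sum.inl ⟨a, h⟩, rfl, rfl⟩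
    · exact ⟨Sum.inr i, h1, h2⟩
  · obtain ⟨j, hj⟩ := hσ i
    exact ⟨Sum.inr j, hj⟩

/-- moving parameters into the tuple -/
theorem Over.of_params {y y' : ι' → Elt} (h : Over K S x x') (hT : T ⊆ S)
    (hσ : ∀ i', (∃ a ∈ S, a = y i' ∧ a = y' i') ∨ ∃ i, x i = y i' ∧ x' i = y' i') :
    Over K T y y' := by
  refine Eqv.reindex h ?_
  rintro (⟨a, ha⟩ | i)
  · exact ⟨Sum.inl ⟨a, hT ha⟩, rfl, rfl⟩
  · rcases hσ i with ⟨a, ha, h1, h2⟩ | ⟨j, hj⟩
    · exact ⟨Sum.inl ⟨a, ha⟩, h1, h2⟩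
    · exact ⟨Sum.inr j, hj⟩

end

/-- Comparisons of `β` and `β'` with `r` truncated at `K`. -/
def Cmp (K : ℕ) (β β' r : ℕ) : Prop :=
  ∀ k ≤ K, (β + k ≤ r ↔ β' + k ≤ r) ∧ (r + k ≤ β ↔ r + k ≤ β')

section

variable {K : ℕ} {S : Set Elt} {x x' : Elt}

theorem over_lift {ι : Type u} {x x' : ι → Elt} (h : Over K S x x') :
    (∀ (z : List Elt) (l : List ι), (∀ e ∈ z, e ∈ S) →
      (Alw (l.map x ++ z) ↔ Alw (l.map x' ++ z))) ∧
    ∀ (z z' : List Elt) (l l' : List ι), (∀ e ∈ z, e ∈ S) → (∀ e ∈ z', e ∈ S) →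
      Alw (l.map x ++ z) → Alw (l'.map x ++ z') → ∀ k ≤ K,
      (val (l.map x ++ z) + k ≤ val (l'.map x ++ z') ↔
        val (l.map x' ++ z) + k ≤ val (l'.map x' ++ z')) := by
  have key : ∀ (y : ι → Elt) (z : List S) (l : List ι),
      l.map y ++ z.map Subtype.val =
        (l.map Sum.inr ++ z.map Sum.inl).map (Sum.elim (Subtype.val : S → Elt) y) := by
    intro y z l
    simp [Function.comp_def]
  constructor
  · intro z l hz
    lift z to List S using hz
    rw [key, key]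
    exact h.1 _
  · intro z z' l l' hz hz' h1 h2 k hk
    lift z to List S using hz
    lift z' to List S using hz'
    rw [key] at h1 h2
    rw [key, key, key, key]
    exact h.2 _ _ h1 h2 k hk

theorem over_alw (h : Over K S (fun _ : Unit => x) (fun _ : Unit => x')) {z : List Elt}
    (hz : ∀ e ∈ z, e ∈ S) : Alw (x :: z) ↔ Alw (x' :: z) := by
  simpa using (over_lift h).1 z [()] hz

theorem over_cmp_lev (h : Over K S (fun _ : Unit => x) (fun _ : Unit => x')) {z : List Elt}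
    (hz : ∀ e ∈ z, e ∈ S) (hA : Alw z) : Cmp K x.lev x'.lev (val z) := by
  intro k hk
  have h1 := (over_lift h).2 [] z [(), ()] [] (by simp) hz (by simp) (by simpa using hA) k hk
  have h2 := (over_lift h).2 z [] [] [(), ()] hz (by simp) (by simpa using hA) (by simp) k hk
  simp only [List.map_cons, List.map_nil, List.append_nil, val_pair, List.nil_append] at h1 h2
  exact ⟨h1, h2⟩

theorem over_cmp_val (h : Over K S (fun _ : Unit => x) (fun _ : Unit => x')) {z w : List Elt}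
    (hz : ∀ e ∈ z, e ∈ S) (hA : Alw z) (hw : ∀ e ∈ w, e ∈ S) (hB : Alw (x :: w)) :
    Cmp K (val (x :: w)) (val (x' :: w)) (val z) := by
  intro k hk
  have h1 := (over_lift h).2 w z [()] [] hw hz (by simpa using hB) (by simpa using hA) k hk
  have h2 := (over_lift h).2 z w [] [()] hz hw (by simpa using hA) (by simpa using hB) k hk
  simpa using And.intro h1 h2

/-- a criterion for `Over` of singletons -/
theorem over_of {P : Set (ℕ × ℕ)} (hP : OrdEq K P)
    (ha : ∀ z : List Elt, (∀ e ∈ z, e ∈ S) → (Alw (x :: z) ↔ Alw (x' :: z)))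
    (h1 : ∀ z : List Elt, (∀ e ∈ z, e ∈ S) → Alw z → (val z, val z) ∈ P)
    (h2 : (x.lev, x'.lev) ∈ P)
    (h3 : ∀ z : List Elt, (∀ e ∈ z, e ∈ S) → Alw (x :: z) → ∃ u ∈ P, ∃ v ∈ P,
      val (x :: z) = min u.1 v.1 ∧ val (x' :: z) = min u.2 v.2) :
    Over K S (fun _ : Unit => x) (fun _ : Unit => x') := by
  have hmem : ∀ (l : List S), ∀ e ∈ l.map Subtype.val, e ∈ S := by
    intro l e he
    obtain ⟨a, _, rfl⟩ := List.mem_map.1 he
    exact a.2
  have := final (ι := S) (s := Subtype.val) (t := Subtype.val) hP (fun _ => Iff.rfl)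
    (fun l => ha _ (hmem l)) (fun l hl => h1 _ (hmem l) hl) h2 (fun l hl => h3 _ (hmem l) hl)
  refine this.reindex ?_
  rintro (a | u)
  · exact ⟨some a, rfl, rfl⟩
  · exact ⟨none, rfl, rfl⟩

end

theorem srt_eq_of_alw {x x' : Elt} {w : List Elt} (h : Alw (x :: w)) (h' : Alw (x' :: w)) :
    x.srt = x'.srt := by
  have e1 := h.2
  have e2 := h'.2
  simp only [xr_cons] at e1 e2
  revert e1 e2
  cases x.srt <;> cases x'.srt <;> cases xr Elt.srt w <;> simp

theorem alw_two_iff {x y : Elt} (h : x.lev = y.lev) : Alw [x, y] ↔ x.srt = y.srt := by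
  simp [Alw, h]

/-- the case of one variable -/
theorem honest_one (K : ℕ) {J : Type v} [Nonempty J] (b : J → Set Elt) (x : Elt) :
    ∃ c : Fin 5 → J, ∀ x' : Elt,
      Over K (⋃ q, b (c q)) (fun _ : Unit => x) (fun _ => x') →
      ∀ j, Over K (b j) (fun _ : Unit => x) (fun _ => x') := by
  classical
  obtain ⟨jd⟩ := ‹Nonempty J›
  let Lm : Set ℕ := {r | ∃ j, ∃ z : List Elt, (∀ e ∈ z, e ∈ b j) ∧ Alw z ∧ val z = r}
  have hLm : Lm.Nonempty := ⟨0, jd, [], by simp, by simp, by simp⟩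
  obtain ⟨_, ⟨j1, z1, hz1, hA1, rfl⟩, _, ⟨j2, z2, hz2, hA2, rfl⟩, hnear⟩ :=
    exists_nearest K hLm x.lev
  by_cases hZ : ∃ j, ∃ z : List Elt, (∀ e ∈ z, e ∈ b j) ∧ Alw (x :: z)
  · obtain ⟨w, ⟨j0, hw, hxw⟩, hbest⟩ := exists_best (x := x)
      (Z := {z | ∃ j, (∀ e ∈ z, e ∈ b j) ∧ Alw (x :: z)})
      (by obtain ⟨j, z, h1, h2⟩ := hZ; exact ⟨z, j, h1, h2⟩)
      (fun z hz => by obtain ⟨_, _, hz⟩ := hz; exact hz)
    let R : Set ℕ := {r | ∃ j, ∃ z : List Elt, (∀ e ∈ z, e ∈ b j ∪ b j0) ∧ Alw z ∧ val z = r}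
    have hR : R.Nonempty := ⟨0, jd, [], by simp, by simp, by simp⟩
    obtain ⟨_, ⟨j3, z3, hz3, hA3, rfl⟩, _, ⟨j4, z4, hz4, hA4, rfl⟩, hnear'⟩ :=
      exists_nearest K hR (val (x :: w))
    refine ⟨![j1, j2, j0, j3, j4], fun x' hx' => ?_⟩
    set S : Set Elt := ⋃ q, b (![j1, j2, j0, j3, j4] q) with hS
    have hsub : ∀ q : Fin 5, b (![j1, j2, j0, j3, j4] q) ⊆ S := fun q =>
      Set.subset_iUnion (fun q => b (![j1, j2, j0, j3, j4] q)) q
    have s0 : b j0 ⊆ S := hsub 2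
    have s3 : b j3 ⊆ S := hsub 3
    have s4 : b j4 ⊆ S := hsub 4
    have hwS : ∀ e ∈ w, e ∈ S := fun e he => s0 (hw e he)
    obtain ⟨e, hew, hex⟩ := hxw.exists_lev
    have hx'w : Alw (x' :: w) := (over_alw hx' hwS).1 hxw
    have hlev : x'.lev = x.lev := by
      have := over_cmp_lev hx' (z := [e, e]) (by simpa using hwS e hew) (by simp) 0
        (Nat.zero_le _)
      simp only [val_pair, add_zero] at this
      omega
    have hsrt : x.srt = x'.srt := srt_eq_of_alw hxw hx'w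
    have hcmp : ∀ r ∈ R, Cmp K (val (x :: w)) (val (x' :: w)) r := by
      refine hnear' _ ?_ ?_
      · exact over_cmp_val hx' (fun e he => (hz3 e he).elim (fun h => s3 h) (fun h => s0 h)) hA3
          hwS hxw
      · exact over_cmp_val hx' (fun e he => (hz4 e he).elim (fun h => s4 h) (fun h => s0 h)) hA4
          hwS hxw
    intro j
    have hRz : ∀ z : List Elt, (∀ e ∈ z, e ∈ b j) → Alw z → val z ∈ R := fun z hz hA =>
      ⟨j, z, fun e he => Or.inl (hz e he), hA, rfl⟩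
    have hlR : x.lev ∈ R := ⟨j0, [e, e], by simpa using hw e hew, by simp, by simpa using hex⟩
    have hdiag : OrdEq K {u : ℕ × ℕ | u.1 ∈ R ∧ u.2 = u.1} := by
      rintro ⟨u1, u2⟩ ⟨_, hu⟩ ⟨v1, v2⟩ ⟨_, hv⟩ k _
      simp only at hu hv
      subst hu hv
      exact Iff.rfl
    have hOrd : OrdEq K (insert (val (x :: w), val (x' :: w)) {u : ℕ × ℕ | u.1 ∈ R ∧ u.2 = u.1}) := by
      apply hdiag.insert_pair
      rintro ⟨v1, v2⟩ ⟨hv1, hv⟩ k hk
      simp only at hv hv1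
      subst hv
      exact hcmp _ hv1 k hk
    refine over_of hOrd (fun z _ => alw_cons_congr hlev.symm hsrt z)
      (fun z hz hA => Or.inr ⟨hRz z hz hA, rfl⟩) (Or.inr ⟨hlR, hlev⟩) (fun z hz hA => ?_)
    have hA' : Alw (x' :: z) := (alw_cons_congr hlev.symm hsrt z).1 hA
    have hQ : val (z ++ w) ∈ R := ⟨j, z ++ w, fun e he => (List.mem_append.1 he).elim
      (fun h => Or.inl (hz e h)) (fun h => Or.inr (hw e h)), hA.cons_cons hxw, rfl⟩
    have hPz : val (z ++ z) ∈ R := ⟨j, z ++ z, fun e he => (List.mem_append.1 he).elim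
      (fun h => Or.inl (hz e h)) (fun h => Or.inl (hz e h)), alw_double z, rfl⟩
    refine ⟨_, Or.inl rfl, (val (z ++ w), val (z ++ w)), Or.inr ⟨hQ, rfl⟩, ?_, ?_⟩
    · exact val_cons_eq hA (hbest z ⟨j, hz, hA⟩)
    · apply val_cons_eq hA'
      intro hQ'
      have c1 := hcmp _ hQ 0 (Nat.zero_le _)
      have c2 := hcmp _ hPz 0 (Nat.zero_le _)
      simp only [add_zero] at c1 c2
      apply c2.2.1
      apply hbest z ⟨j, hz, hA⟩
      omega
  · push Not at hZ
    obtain ⟨j0, hj0⟩ : ∃ j0, ∀ j, ∀ e ∈ b j, e.lev = x.lev → ∃ e' ∈ b j0, e'.lev = x.lev := by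
      by_cases hex : ∃ j, ∃ e ∈ b j, e.lev = x.lev
      · obtain ⟨j, e, he, hl⟩ := hex
        exact ⟨j, fun _ _ _ _ => ⟨e, he, hl⟩⟩
      · push Not at hex
        exact ⟨jd, fun j e he hl => absurd hl (hex j e he)⟩
    refine ⟨![j1, j2, j0, j0, j0], fun x' hx' => ?_⟩
    set S : Set Elt := ⋃ q, b (![j1, j2, j0, j0, j0] q) with hS
    have hsub : ∀ q : Fin 5, b (![j1, j2, j0, j0, j0] q) ⊆ S := fun q =>
      Set.subset_iUnion (fun q => b (![j1, j2, j0, j0, j0] q)) q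
    have s1 : b j1 ⊆ S := hsub 0
    have s2 : b j2 ⊆ S := hsub 1
    have s0 : b j0 ⊆ S := hsub 2
    have hcmp : ∀ r ∈ Lm, Cmp K x.lev x'.lev r := by
      refine hnear _ ?_ ?_
      · exact over_cmp_lev hx' (fun e he => s1 (hz1 e he)) hA1
      · exact over_cmp_lev hx' (fun e he => s2 (hz2 e he)) hA2
    intro j
    have hlevmem : ∀ j, ∀ e ∈ b j, e.lev ∈ Lm := fun j e he =>
      ⟨j, [e, e], by simpa using he, by simp, by simp⟩
    have hlev0 : ∀ j, ∀ e ∈ b j, (e.lev = x.lev ↔ e.lev = x'.lev) := by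
      intro j e he
      have := hcmp _ (hlevmem j e he) 0 (Nat.zero_le _)
      simp only [add_zero] at this
      omega
    have hdiag : OrdEq K {u : ℕ × ℕ | u.1 ∈ Lm ∧ u.2 = u.1} := by
      rintro ⟨u1, u2⟩ ⟨_, hu⟩ ⟨v1, v2⟩ ⟨_, hv⟩ k _
      simp only at hu hv
      subst hu hv
      exact Iff.rfl
    have hOrd : OrdEq K (insert (x.lev, x'.lev) {u : ℕ × ℕ | u.1 ∈ Lm ∧ u.2 = u.1}) := by
      apply hdiag.insert_pair
      rintro ⟨v1, v2⟩ ⟨hv1, hv⟩ k hk
      simp only at hv hv1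
      subst hv
      exact hcmp _ hv1 k hk
    refine over_of hOrd (fun z hz => ?_)
      (fun z hz hA => Or.inr ⟨⟨j, z, hz, hA, rfl⟩, rfl⟩) (Or.inl rfl)
      (fun z hz hA => absurd hA (hZ j z hz))
    refine iff_of_false (hZ j z hz) (fun hA => ?_)
    obtain ⟨e, he, hl⟩ := hA.exists_lev
    have hl' : e.lev = x.lev := (hlev0 j e (hz e he)).2 hl
    obtain ⟨e', he', hl''⟩ := hj0 j e (hz e he) hl'
    have hxx' : x'.lev = x.lev := by omega
    -- the sorts agree
    have n1 : ¬ Alw [x, e'] := hZ j0 [e'] (by simpa using he')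
    have n2 : ¬ Alw [x', e'] := fun h =>
      n1 ((over_alw hx' (z := [e']) (by simpa using s0 he')).2 h)
    rw [alw_two_iff hl''.symm] at n1
    rw [alw_two_iff (hxx'.trans hl''.symm)] at n2
    have hs : x.srt = x'.srt := by
      revert n1 n2
      cases x.srt <;> cases x'.srt <;> cases e'.srt <;> simp
    exact hZ j z hz ((alw_cons_congr hxx'.symm hs z).2 hA)

/-- **Strong honest definitions for tuples.** -/
theorem honest (α : Type) [Finite α] : ∀ K : ℕ, ∃ (K' : ℕ) (Q : Type) (_ : Fintype Q),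
    ∀ (J : Type) [Nonempty J] (b : J → Set Elt) (x : α → Elt),
      ∃ c : Q → J, ∀ x' : α → Elt, Over K' (⋃ q, b (c q)) x x' → ∀ j, Over K (b j) x x' := by
  induction α using Finite.induction_empty_option with
  | of_equiv e ih =>
    intro K
    obtain ⟨K', Q, hQ, h⟩ := ih K
    refine ⟨K', Q, hQ, fun J _ b x => ?_⟩
    obtain ⟨c, hc⟩ := h J b (fun i => x (e i))
    refine ⟨c, fun x' hx' j => ?_⟩
    have := hc (fun i => x' (e i)) (hx'.reindex fun i => ⟨e i, rfl, rfl⟩) j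
    exact this.reindex fun i => ⟨e.symm i, by simp, by simp⟩
  | h_empty =>
    intro K
    refine ⟨K, PEmpty, inferInstance, fun J _ b x => ⟨fun q => q.elim, fun x' _ j => ?_⟩⟩
    have : x = x' := Subsingleton.elim _ _
    rw [this]
    exact Eqv.refl _ _
  | @h_option α _ ih =>
    intro K
    obtain ⟨K', Q, hQ, h⟩ := ih (2 * K + 2)
    refine ⟨max K K', Fin 5 ⊕ Q, inferInstance, fun J _ b x => ?_⟩
    let x₂ : α → Elt := fun a => x (some a)
    obtain ⟨c₁, hc₁⟩ := honest_one K (fun j => b j ∪ Set.range x₂) (x none)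
    obtain ⟨c₂, hc₂⟩ := h J (fun j => (⋃ q, b (c₁ q)) ∪ b j) x₂
    refine ⟨Sum.elim c₁ c₂, fun x' hx' j => ?_⟩
    set S : Set Elt := ⋃ q, b (Sum.elim c₁ c₂ q) with hS
    have hS1 : ∀ q, b (c₁ q) ⊆ S := fun q =>
      Set.subset_iUnion (fun q => b (Sum.elim c₁ c₂ q)) (Sum.inl q)
    have hS2 : ∀ q, b (c₂ q) ⊆ S := fun q =>
      Set.subset_iUnion (fun q => b (Sum.elim c₁ c₂ q)) (Sum.inr q)
    have hS1' : (⋃ q, b (c₁ q)) ⊆ S := Set.iUnion_subset hS1
    have hS2' : (⋃ q, ((⋃ q, b (c₁ q)) ∪ b (c₂ q))) ⊆ S :=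
      Set.iUnion_subset fun q => Set.union_subset hS1' (hS2 q)
    let x₂' : α → Elt := fun a => x' (some a)
    have step1 : ∀ j, Over (2 * K + 2) ((⋃ q, b (c₁ q)) ∪ b j) x₂ x₂' := by
      apply hc₂
      exact (hx'.mono (le_max_right _ _) hS2').reindex fun i => ⟨some i, rfl, rfl⟩
    obtain ⟨y, hy⟩ := (Eqv.symm (step1 j)).extend (x' none)
    -- over the whole set, `(x₂', x' none) ~ (x₂, y)`
    have step2 : Over K ((⋃ q, b (c₁ q)) ∪ b j) x' (ext x₂ y) := by
      refine hy.reindex ?_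
      rintro (a | i)
      · exact ⟨some (Sum.inl a), rfl, rfl⟩
      · cases i with
        | none => exact ⟨none, rfl, rfl⟩
        | some i => exact ⟨some (Sum.inr i), rfl, rfl⟩
    have step3 : Over K (⋃ q, b (c₁ q)) x (ext x₂ y) :=
      (hx'.mono (le_max_left _ _) hS1').trans (step2.mono le_rfl Set.subset_union_left)
    have step4 : Over K (⋃ q, (b (c₁ q) ∪ Set.range x₂)) (fun _ : Unit => x none)
        (fun _ : Unit => y) := by
      refine step3.to_params ?_ ?_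
      · intro a ha
        obtain ⟨q, hq | ⟨i, rfl⟩⟩ := Set.mem_iUnion.1 ha
        · exact Or.inl (Set.mem_iUnion.2 ⟨q, hq⟩)
        · exact Or.inr ⟨some i, rfl, rfl⟩
      · intro _
        exact ⟨none, rfl, rfl⟩
    have step5 := hc₁ y step4 j
    have step6 : Over K (b j) x (ext x₂ y) := by
      refine step5.of_params Set.subset_union_left ?_
      intro i
      cases i with
      | none => exact Or.inr ⟨(), rfl, rfl⟩
      | some i => exact Or.inl ⟨x₂ i, Or.inr ⟨i, rfl⟩, rfl, rfl⟩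
    exact step6.trans (step2.mono le_rfl Set.subset_union_right).symm

end Pool.Agent.DpTree
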