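import Pool.Agent.DpTree.Honest
import Pool.Agent.DpTree.DistalOf

/-!
# The language and the structure; invariance of formulas; distality
-/

open FirstOrder FirstOrder.Language

namespace Pool.Agent.DpTree

/-- The language: no functions, and in every arity a relation symbol for each pair of natural
numbers. -/
def Ltree : FirstOrder.Language.{0, 0} := ⟨fun _ => Empty, fun _ => ℕ × ℕ⟩

/-- The basic relation between two lists. -/
def Rel (z z' : List Elt) (k : ℕ) : Prop := Alw z ∧ Alw z' ∧ val z + k ≤ val z'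

noncomputable instance : Ltree.Structure Elt where
  funMap := fun f => Empty.elim f
  RelMap := fun {_} (r : ℕ × ℕ) x =>
    Rel ((List.ofFn x).take r.1) ((List.ofFn x).drop r.1) r.2

theorem relMap_iff {n : ℕ} (r : ℕ × ℕ) (x : Fin n → Elt) :
    Structure.RelMap (L := Ltree) (M := Elt) (n := n) r x ↔
      Rel ((List.ofFn x).take r.1) ((List.ofFn x).drop r.1) r.2 := Iff.rfl

/-- the relation symbol of arity `n` with index `(p, k)` -/
def rsym (n p k : ℕ) : Ltree.Relations n := ((p, k) : ℕ × ℕ)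

/-- the atomic formula for the basic relation -/
def atm {ι : Type} (l l' : List ι) (k : ℕ) : Ltree.Formula ι :=
  Relations.formula (rsym (l ++ l').length l.length k) (fun i => Term.var ((l ++ l').get i))

theorem realize_atm {ι : Type} (l l' : List ι) (k : ℕ) (s : ι → Elt) :
    (atm l l' k).Realize s ↔ Rel (l.map s) (l'.map s) k := by
  unfold atm
  rw [Formula.realize_rel]
  unfold rsym
  rw [relMap_iff]
  have h : List.ofFn (fun i => (Term.var (L := Ltree) ((l ++ l').get i)).realize s) =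
      l.map s ++ l'.map s := by
    rw [← List.map_append]
    conv_rhs => rw [← List.ofFn_get (l ++ l')]
    rw [List.map_ofFn]
    rfl
  rw [h]
  simp

theorem eqv_iff_rel {ι : Type} {K : ℕ} {s t : ι → Elt} :
    Eqv K s t ↔ ∀ l l' : List ι, ∀ k ≤ K,
      (Rel (l.map s) (l'.map s) k ↔ Rel (l.map t) (l'.map t) k) := by
  constructor
  · intro h l l' k hk
    unfold Rel
    constructor
    · rintro ⟨h1, h2, h3⟩
      exact ⟨(h.1 l).1 h1, (h.1 l').1 h2, (h.2 l l' h1 h2 k hk).1 h3⟩
    · rintro ⟨h1, h2, h3⟩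
      exact ⟨(h.1 l).2 h1, (h.1 l').2 h2,
        (h.2 l l' ((h.1 l).2 h1) ((h.1 l').2 h2) k hk).2 h3⟩
  · intro h
    have h0 : ∀ l : List ι, Alw (l.map s) ↔ Alw (l.map t) := by
      intro l
      have := h [] l 0 (Nat.zero_le _)
      simpa [Rel] using this
    refine ⟨h0, fun l l' hl hl' k hk => ?_⟩
    have := h l l' k hk
    unfold Rel at this
    simpa [hl, hl', (h0 l).1 hl, (h0 l').1 hl'] using this

/-- Lists of bounded length. -/
abbrev Short (ι : Type) [Fintype ι] : Type := {l : List ι // l.length ≤ 2 * Fintype.card ι}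

instance {ι : Type} [Fintype ι] : Finite (Short ι) :=
  Set.Finite.to_subtype (List.finite_length_le ι _)

theorem eqv_of_short {ι : Type} [Fintype ι] {K : ℕ} {s t : ι → Elt}
    (h : ∀ (l l' : Short ι) (k : Fin (K + 1)),
      (Rel (l.1.map s) (l'.1.map s) k ↔ Rel (l.1.map t) (l'.1.map t) k)) : Eqv K s t := by
  rw [eqv_iff_rel]
  intro l l' k hk
  obtain ⟨m, hm, hs⟩ := exists_short l
  obtain ⟨m', hm', hs'⟩ := exists_short l'
  have e : ∀ q : ι → Elt, Rel (l.map q) (l'.map q) k ↔ Rel (m.map q) (m'.map q) k := by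
    intro q
    unfold Rel
    rw [(hs.map q).alw, (hs'.map q).alw, (hs.map q).val, (hs'.map q).val]
  rw [e, e]
  exact h ⟨m, hm⟩ ⟨m', hm'⟩ ⟨k, by omega⟩

/-- Terms are variables. -/
theorem term_eq_var {γ : Type} (t : Ltree.Term γ) : ∃ i, t = Term.var i := by
  cases t with
  | var i => exact ⟨i, rfl⟩
  | func f _ => exact Empty.elim f

/-- **Invariance of formulas.** -/
theorem realize_invariant {α : Type} {n : ℕ} (φ : Ltree.BoundedFormula α n) :
    ∃ K : ℕ, ∀ (v v' : α → Elt) (xs xs' : Fin n → Elt),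
      Eqv K (Sum.elim v xs) (Sum.elim v' xs') → (φ.Realize v xs ↔ φ.Realize v' xs') := by
  induction φ with
  | falsum => exact ⟨0, fun _ _ _ _ _ => Iff.rfl⟩
  | equal t₁ t₂ =>
    obtain ⟨i, rfl⟩ := term_eq_var t₁
    obtain ⟨j, rfl⟩ := term_eq_var t₂
    refine ⟨0, fun v v' xs xs' h => ?_⟩
    have := h.eq_iff i j
    simpa [BoundedFormula.Realize] using this
  | @rel n l R ts =>
    obtain ⟨p, k⟩ := R
    have hts : ∀ i, ∃ j, ts i = Term.var j := fun i => term_eq_var (ts i)
    choose σ hσ using hts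
    refine ⟨k, fun v v' xs xs' h => ?_⟩
    simp only [BoundedFormula.Realize, hσ, Term.realize_var]
    rw [relMap_iff, relMap_iff]
    have e : ∀ q : α ⊕ Fin n → Elt, (List.ofFn fun i => q (σ i)) = (List.ofFn σ).map q := by
      intro q
      rw [List.map_ofFn]
      rfl
    rw [e, e, ← List.map_take, ← List.map_drop, ← List.map_take, ← List.map_drop]
    exact (eqv_iff_rel.1 h) _ _ k le_rfl
  | imp φ ψ ih₁ ih₂ =>
    obtain ⟨K₁, h₁⟩ := ih₁
    obtain ⟨K₂, h₂⟩ := ih₂
    refine ⟨max K₁ K₂, fun v v' xs xs' h => ?_⟩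
    rw [BoundedFormula.realize_imp, BoundedFormula.realize_imp,
      h₁ v v' xs xs' (h.mono (le_max_left _ _)), h₂ v v' xs xs' (h.mono (le_max_right _ _))]
  | @all n φ ih =>
    obtain ⟨K, hK⟩ := ih
    have aux : ∀ (v v' : α → Elt) (xs xs' : Fin n → Elt),
        Eqv (2 * K + 2) (Sum.elim v xs) (Sum.elim v' xs') →
        (∀ x, φ.Realize v (Fin.snoc xs x)) → ∀ x', φ.Realize v' (Fin.snoc xs' x') := by
      intro v v' xs xs' h hx x'
      obtain ⟨x, hxx⟩ := h.symm.extend x'
      refine (hK v v' (Fin.snoc xs x) (Fin.snoc xs' x') ?_).1 (hx x)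
      refine (Eqv.symm hxx).reindex ?_
      rintro (i | i)
      · exact ⟨some (Sum.inl i), rfl, rfl⟩
      · refine Fin.lastCases ?_ (fun i => ?_) i
        · exact ⟨none, by simp, by simp⟩
        · exact ⟨some (Sum.inr i), by simp, by simp⟩
    refine ⟨2 * K + 2, fun v v' xs xs' h => ?_⟩
    rw [BoundedFormula.realize_all, BoundedFormula.realize_all]
    exact ⟨aux v v' xs xs' h, aux v' v xs' xs h.symm⟩

theorem realize_invariant' {α : Type} (φ : Ltree.Formula α) :
    ∃ K : ℕ, ∀ (v v' : α → Elt), Eqv K v v' → (φ.Realize v ↔ φ.Realize v') := by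
  obtain ⟨K, hK⟩ := realize_invariant φ
  refine ⟨K, fun v v' h => hK v v' default default (h.reindex ?_)⟩
  rintro (i | i)
  · exact ⟨i, rfl, rfl⟩
  · exact Fin.elim0 i

/-- Distality of the structure. -/
theorem distal : Distal Ltree Elt := by
  classical
  apply distal_of_honest
  intro κ α _ _ φ
  obtain ⟨K, hK⟩ := realize_invariant' φ
  obtain ⟨K', Q, _, hQ⟩ := honest α K
  have := Fintype.ofFinite κ
  have := Fintype.ofFinite α
  refine ⟨Q, Short ((Q × κ) ⊕ α) × Short ((Q × κ) ⊕ α) × Fin (K' + 1), inferInstance,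
    inferInstance, fun a => atm a.1.1 a.2.1.1 a.2.2, ?_⟩
  intro b x
  obtain ⟨c, hc⟩ := hQ (Fin (Fintype.card Q + 1)) (fun j => Set.range fun q => b (j, q)) x
  refine ⟨c, fun x' hx' j => ?_⟩
  have h1 : Eqv K' (Sum.elim (fun q : Q × κ => b (c q.1, q.2)) x)
      (Sum.elim (fun q : Q × κ => b (c q.1, q.2)) x') := by
    apply eqv_of_short
    intro l l' k
    have := hx' (l, l', k)
    rwa [realize_atm, realize_atm] at this
  have h2 : Over K' (⋃ q, Set.range fun i => b (c q, i)) x x' := by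
    refine h1.reindex ?_
    rintro (⟨a, ha⟩ | i)
    · obtain ⟨q, i, rfl⟩ := Set.mem_iUnion.1 ha
      exact ⟨Sum.inl (q, i), rfl, rfl⟩
    · exact ⟨Sum.inr i, rfl, rfl⟩
  have h3 := hc x' h2 j
  apply hK
  refine Eqv.reindex h3 ?_
  rintro (i | i)
  · exact ⟨Sum.inl ⟨_, i, rfl⟩, rfl, rfl⟩
  · exact ⟨Sum.inr i, rfl, rfl⟩

end Pool.Agent.DpTree
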